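import Pool.Agent.Lib.MP_f6efc0_lc.Classes

/-!
# Core of the theorem `P = RP, and BPP without complete languages`: definitions

Paper proof: `h7_prp.md` (the text is repeated in the headers of the files of this folder).

`BSys` is an abstract system of probabilistic machines `j` (only acceptance matters) and of
reductions `i`.  Words used by the oracle:
* code words `false :: code j s k x`, valid if `bd j |x| ^ 2 ≤ k`;
* `Y`-words `true :: tag b r`, `|r| = n + 1`, `b = pair (pair j s) M` for the BPP-machine `(j, s)`.

All machines are ordered in one list: the index `2 j` is the machine `j` with the RP-promise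
(`P = 0` or `P > 1 / 2`), the index `2 (pair j s) + 1` is the machine `j` with the BPP-promise
`|P - 1 / 2| ≥ 1 / (s + 1)`.
-/

set_option autoImplicit false

namespace OrC

/-- Probabilistic machines and reductions with an oracle. -/
structure BSys where
  /-- machine `j` with oracle `A` accepts `x` with the coins `r` -/
  acc : ℕ → Oracle → Word → Word → Bool
  /-- its questions -/
  qst : ℕ → Oracle → Word → Word → List Word
  /-- number of coins as a function of `|x|` -/
  rl : ℕ → ℕ → ℕ
  /-- bound for the number and the length of the questions -/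
  bd : ℕ → ℕ → ℕ
  /-- reductions -/
  F : ℕ → Oracle → Word → Word
  /-- their questions -/
  qF : ℕ → Oracle → Word → List Word
  /-- bound for number and length of the questions and the length of the value -/
  bF : ℕ → ℕ → ℕ
  loc : ∀ j A A' x r, (∀ q ∈ qst j A x r, A q = A' q) →
    acc j A' x r = acc j A x r ∧ qst j A' x r = qst j A x r
  qnum : ∀ j A x r, r.length = rl j x.length → (qst j A x r).length ≤ bd j x.length
  qlen : ∀ j A x r, r.length = rl j x.length → ∀ q ∈ qst j A x r, q.length ≤ bd j x.length
  bd_poly : ∀ j, ∃ c, ∀ n, bd j n ≤ (n + 2) ^ c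
  locF : ∀ i A A' x, (∀ q ∈ qF i A x, A q = A' q) → F i A' x = F i A x
  qFnum : ∀ i A x, (qF i A x).length ≤ bF i x.length
  qFlen : ∀ i A x, ∀ q ∈ qF i A x, q.length ≤ bF i x.length
  Flen : ∀ i A x, (F i A x).length ≤ bF i x.length
  bF_poly : ∀ i, ∃ c, ∀ n, bF i n ≤ (n + 2) ^ c

/-- Acceptance probability of machine `j` on `x` in the world `X`. -/
noncomputable def BSys.P (G : BSys) (j : ℕ) (X : Oracle) (x : Word) : ℝ :=
  Pr (G.rl j x.length) fun r => G.acc j X x r = true

/-- The machine of the index `a`. -/
def mach (a : ℕ) : ℕ := if a % 2 = 0 then a / 2 else (a / 2).unpair.1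

/-- The value `p` of the acceptance probability breaks the promise of the index `a`. -/
def Bad (a : ℕ) (p : ℝ) : Prop :=
  if a % 2 = 0 then 0 < p ∧ p ≤ 1 / 2 else |p - 1 / 2| < 1 / ((a / 2).unpair.2 + 1 : ℝ)

/-- Index `a` breaks its promise in the world `X`, seen inside the words of length `≤ l`. -/
def Viol (G : BSys) (a l : ℕ) (X : Oracle) : Prop :=
  ∃ x : Word, G.bd (mach a) x.length ≤ l ∧ Bad a (G.P (mach a) X x)

/-- Density of the `Y`-set number `b` at the level `n`. -/
noncomputable def dens (X : Oracle) (b n : ℕ) : ℝ := Pr (n + 1) fun r => X (true :: tag b r) = true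

/-- `X` and `X'` agree on the words of length `≤ l`. -/
def Agree (l : ℕ) (X X' : Oracle) : Prop := ∀ w : Word, w.length ≤ l → X' w = X w

/-- The code bit of the word `w = false :: code j s k x` is correct in `X`. -/
def CodeOK (G : BSys) (X : Oracle) (j s k : ℕ) (x : Word) : Prop :=
  X (false :: code j s k x) = true ↔ 0 < G.P j X x

/-- `(l, X')` is an extension of `(m, X)` which is legal for the kept machines `b ∈ S`, `b < a`:
in the levels `m < .. ≤ l` the code bits of the kept RP-indices `< a` are correct and the
`Y`-sets of the kept BPP-indices `< a` are sparse or dense. -/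
structure Ext (G : BSys) (a : ℕ) (S : Set ℕ) (m : ℕ) (X : Oracle) (l : ℕ) (X' : Oracle) :
    Prop where
  le : m ≤ l
  agree : Agree m X X'
  code : ∀ j s k x, 2 * j < a → 2 * j ∈ S → m < (false :: code j s k x).length →
    (false :: code j s k x).length ≤ l → G.bd j x.length ^ 2 ≤ k → CodeOK G X' j s k x
  dens : ∀ j s M n, 2 * Nat.pair j s + 1 < a → 2 * Nat.pair j s + 1 ∈ S →
    m < Nat.pair (Nat.pair j s) M + n + 3 → Nat.pair (Nat.pair j s) M + n + 3 ≤ l →
    dens X' (Nat.pair (Nat.pair j s) M) n ≤ 1 / 3 ∨ 2 / 3 ≤ dens X' (Nat.pair (Nat.pair j s) M) n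

/-- The kept machines cannot be made to break their promise by legal extensions. -/
def Unk (G : BSys) (S : Set ℕ) (m : ℕ) (X : Oracle) : Prop :=
  ∀ b ∈ S, ∀ l X', Ext G b S m X l X' → ¬ Viol G b l X'

end OrC
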