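import Pool.Agent.Lib.MP_f6efc0_lc.CoreB.Main
import Pool.Agent.Lib.MP_f6efc0_lc.Inst

/-!
# Assembly of (b'): an oracle with `P = RP` such that BPP has no complete language
-/

set_option autoImplicit false

namespace OrC

/-- The class P relative to `A`. -/
def InP (A : Oracle) (L : Set Word) : Prop :=
  ∃ t : Tm, ∀ x : Word, x ∈ L ↔ (eval A t [x]).head? = some true

/-- Replace the variables with number `≥ n` by the empty word. -/
def cut : ℕ → Tm → Tm
  | n, .var i => if i < n then .var i else .nil
  | _, .nil => .nil
  | n, .cons b t => .cons b (cut n t)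
  | n, .cas t u v w => .cas (cut n t) (cut n u) (cut (n + 1) v) (cut (n + 1) w)
  | n, .smash t u => .smash (cut n t) (cut n u)
  | n, .ask t => .ask (cut n t)
  | n, .lett t u => .lett (cut n t) (cut (n + 1) u)
  | n, .recn t g h k => .recn (cut n t) (cut n g) (cut (n + 2) h) (cut (n + 1) k)

lemma eval_cut (A : Oracle) : ∀ (t : Tm) (e e' : List Word),
    eval A (cut e.length t) (e ++ e') = eval A t e := by
  intro t
  induction t with
  | var i =>
    intro e e'
    by_cases h : i < e.length
    · simp only [cut, h, if_true, eval, List.getD_eq_getElem?_getD, List.getElem?_append_left h]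
    · have h1 : e.length ≤ i := not_lt.1 h
      simp only [cut, h, if_false, eval, List.getD_eq_getElem?_getD,
        List.getElem?_eq_none h1, Option.getD_none]
  | nil => intro e e'; rfl
  | cons b t ih => intro e e'; simp only [cut, eval, ih]
  | cas t u v w iht ihu ihv ihw =>
    intro e e'
    simp only [cut, eval, iht]
    rcases eval A t e with _ | ⟨b, x⟩
    · exact ihu e e'
    · cases b
      · exact ihv (x :: e) e'
      · exact ihw (x :: e) e'
  | smash t u iht ihu => intro e e'; simp only [cut, eval, iht, ihu]
  | ask t ih => intro e e'; simp only [cut, eval, ih]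
  | lett t u iht ihu =>
    intro e e'
    simp only [cut, eval, iht]
    exact ihu (eval A t e :: e) e'
  | recn t g h k iht ihg ihh ihk =>
    intro e e'
    simp only [cut, eval, iht, ihg]
    have h1 : (fun r x => eval A (cut (e.length + 2) h) (r :: x :: (e ++ e'))) =
        fun r x => eval A h (r :: x :: e) := by
      funext r x
      exact ihh (r :: x :: e) e'
    have h2 : (fun x => (eval A (cut (e.length + 1) k) (x :: (e ++ e'))).length) =
        fun x => (eval A k (x :: e)).length := by
      funext x
      exact congrArg List.length (ihk (x :: e) e')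
    rw [h1, h2]

lemma Pr_true (m : ℕ) {S : Word → Prop} (h : ∀ r, r.length = m → S r) : Pr m S = 1 := by
  have h1 := Pr_compl m S
  have h2 : Pr m (fun r => ¬ S r) = 0 := by
    unfold Pr
    have : {r : Word | r.length = m ∧ ¬ S r} = ∅ := by
      refine Set.eq_empty_of_forall_notMem fun r hr => ?_
      exact hr.2 (h r hr.1)
    rw [this]
    simp
  linarith

lemma Pr_false (m : ℕ) {S : Word → Prop} (h : ∀ r, r.length = m → ¬ S r) : Pr m S = 0 := by
  have h1 := Pr_compl m S
  have h2 : Pr m (fun r => ¬ S r) = 1 := Pr_true m h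
  linarith

/-- Deterministic machines are machines for RP. -/
lemma inRP_of_inP {A : Oracle} {L : Set Word} (h : InP A L) : InRP A L := by
  obtain ⟨t, ht⟩ := h
  refine ⟨cut 1 t, 0, fun x => ⟨fun hx => ?_, fun hx => ?_⟩⟩
  · have : PrOut A (cut 1 t) 0 x (fun y => y = some true) = 1 :=
      Pr_true _ fun r _ => by
        have h1 : eval A (cut 1 t) [x, r] = eval A t [x] := eval_cut A t [x] [r]
        simp only [outcome, h1]
        exact (ht x).1 hx
    rw [this]
    norm_num
  · refine Pr_false _ fun r _ => ?_
    have h1 : eval A (cut 1 t) [x, r] = eval A t [x] := eval_cut A t [x] [r]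
    simp only [outcome, h1]
    exact fun h2 => hx ((ht x).2 h2)

/-- **(b')** There is an oracle `B` with `P = RP` (hence RP has complete languages, even under
reductions without the oracle) such that BPP has no complete language. -/
theorem oracleB : ∃ B : Oracle,
    (∀ L : Set Word, InRP B L ↔ InP B L) ∧
    (∃ K : Set Word, InRP B K ∧ ∀ L : Set Word, InRP B L → ∀ O : Oracle, Reduces O L K) ∧
    ¬ ∃ K : Set Word, InBPP B K ∧ ∀ L : Set Word, InBPP B L → Reduces B L K := by
  obtain ⟨B, h1, h2⟩ := coreB sysB
  have key : ∀ L : Set Word, InRP B L → ∃ j M c, ∀ x : Word,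
      x ∈ L ↔ B (false :: code j M ((x.length + 2) ^ c) x) = true := by
    rintro L ⟨t, k, hL⟩
    obtain ⟨j, hj⟩ := dec_surj (t, k)
    have hP : ∀ x, sysB.P j B x = PrAcc B t k x := by
      intro x
      rw [sysB_P, hj]
    obtain ⟨M, hM⟩ := h1 j fun x => by
      rw [hP x]
      by_cases hx : x ∈ L
      · exact Or.inr ((hL x).1 hx)
      · exact Or.inl ((hL x).2 hx)
    obtain ⟨c, hc⟩ := sysB.bd_poly j
    refine ⟨j, M, c * 2, fun x => ?_⟩
    have h3 := hM M ((x.length + 2) ^ (c * 2)) x le_rfl (by
      rw [pow_mul]
      exact Nat.pow_le_pow_left (hc _) 2)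
    rw [CodeOK, hP x] at h3
    rw [h3]
    constructor
    · intro hx
      exact lt_trans (by norm_num) ((hL x).1 hx)
    · intro hx
      by_contra hx'
      exact hx.ne' ((hL x).2 hx')
  have hRP : ∀ L : Set Word, InRP B L ↔ InP B L := by
    refine fun L => ⟨fun hL => ?_, inRP_of_inP⟩
    obtain ⟨j, M, c, h⟩ := key L hL
    refine ⟨.ask (.cons false (redT j M c)), fun x => ?_⟩
    rw [h x]
    simp only [eval, eval_redT, List.head?_cons, Option.some.injEq]
  refine ⟨B, hRP, ?_, ?_⟩
  · refine ⟨{v | B (false :: v) = true}, (hRP _).2 ⟨.ask (.cons false (.var 0)), fun x => ?_⟩,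
      fun L hL O => ?_⟩
    · change B (false :: x) = true ↔ _
      simp only [eval, List.getD_cons_zero, List.head?_cons, Option.some.injEq]
    · obtain ⟨j, M, c, h⟩ := key L hL
      exact reduces_code O j M c h
  · rintro ⟨K, hK, hc⟩
    obtain ⟨j, s, hjs⟩ := gap_of_BPP hK
    have hs0 : (0 : ℝ) < 1 / ((s : ℝ) + 1) := by positivity
    obtain ⟨b, hb, hi⟩ := h2 j s fun x => by
      rw [sysB_P]
      by_cases hx : x ∈ K
      · exact (le_sub_iff_add_le'.2 ((hjs x).1 hx)).trans (le_abs_self _)
      · rw [abs_sub_comm]
        exact (le_sub_comm.1 ((hjs x).2 hx)).trans (le_abs_self _)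
    have hL : InBPP B {x : Word | 2 / 3 ≤ dens B b x.length} := by
      refine ⟨yT b, 1, 2 / 5, by norm_num, by norm_num, fun x => ⟨fun hx => ?_, fun hx => ?_⟩⟩
      · have h3 : PrOut B (yT b) 1 x (fun y => y = some true) = dens B b x.length := by
          unfold PrOut dens
          rw [pow_one]
          refine Pr_congr _ fun r _ => ?_
          simp only [outcome, eval_yT, List.head?_cons, Option.some.injEq]
        have h4 : PrOut B (yT b) 1 x (fun y => y = some true) +
            PrOut B (yT b) 1 x (fun y => y ≠ some true) = 1 := Pr_compl _ _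
        have h5 : 2 / 3 ≤ dens B b x.length := hx
        rw [h3] at h4
        linarith
      · have h4 : PrOut B (yT b) 1 x (fun y => y ≠ some false) = dens B b x.length := by
          unfold PrOut dens
          rw [pow_one]
          refine Pr_congr _ fun r _ => ?_
          simp only [outcome, eval_yT, List.head?_cons, ne_eq, Option.some.injEq, Bool.not_eq_false]
        have h5 : dens B b x.length ≤ 1 / 3 := (hb x.length).resolve_right hx
        rw [h4]
        linarith
    obtain ⟨i, hi'⟩ := exists_red (hc _ hL)
    obtain ⟨x, hx⟩ := hi i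
    refine hx ((hi' x).trans ?_)
    change eval B (dec i).1 [x] ∈ K ↔ 1 / 2 < sysB.P j B (eval B (dec i).1 [x])
    rw [sysB_P]
    constructor
    · intro h
      have := (hjs _).1 h
      linarith
    · intro h
      by_contra h'
      have := (hjs _).2 h'
      linarith

end OrC
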