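import Pool.Agent.Lib.MP_f6efc0_lc.CoreB.Defs

/-!
# Lengths, injectivity, locality, extensions

Everything is direct. `Ext.trans`: a level `≤ l` is handled by the first extension and locality
(`codeOK_congr`, `dens_congr`), a level `> l` by the second one.
-/

set_option autoImplicit false

namespace OrC

theorem length_tag (j : ℕ) (x : Word) : (tag j x).length = j + 1 + x.length := by
  unfold tag
  rw [List.length_append, List.length_replicate, List.length_cons]
  omega

theorem length_y (b : ℕ) (r : Word) : (true :: tag b r).length = b + r.length + 2 := by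
  rw [List.length_cons, length_tag]
  omega

theorem length_code (j s k : ℕ) (x : Word) :
    (false :: code j s k x).length = j + s + k + x.length + 4 := by
  unfold code
  rw [List.length_cons, length_tag, length_tag, length_tag]
  omega

theorem tag_inj {j j' : ℕ} {x x' : Word} (h : tag j x = tag j' x') : j = j' ∧ x = x' := by
  unfold tag at h
  induction j generalizing j' with
  | zero =>
    cases j' with
    | zero =>
      rw [List.replicate_zero, List.nil_append, List.nil_append] at h
      exact ⟨rfl, (List.cons.inj h).2⟩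
    | succ j' =>
      rw [List.replicate_zero, List.nil_append, List.replicate_succ, List.cons_append] at h
      exact absurd (List.cons.inj h).1 (by decide)
  | succ j ih =>
    cases j' with
    | zero =>
      rw [List.replicate_zero, List.nil_append, List.replicate_succ, List.cons_append] at h
      exact absurd (List.cons.inj h).1 (by decide)
    | succ j' =>
      rw [List.replicate_succ, List.replicate_succ, List.cons_append, List.cons_append] at h
      obtain ⟨h1, h2⟩ := ih (List.cons.inj h).2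
      exact ⟨by rw [h1], h2⟩

theorem code_inj {j s k j' s' k' : ℕ} {x x' : Word} (h : code j s k x = code j' s' k' x') :
    j = j' ∧ s = s' ∧ k = k' ∧ x = x' := by
  unfold code at h
  obtain ⟨h1, h2⟩ := tag_inj h
  obtain ⟨h3, h4⟩ := tag_inj h2
  obtain ⟨h5, h6⟩ := tag_inj h4
  exact ⟨h1, h3, h5, h6⟩

variable {G : BSys}

theorem Agree.mono {l l' : ℕ} {X X' : Oracle} (h : Agree l' X X') (hl : l ≤ l') :
    Agree l X X' := by
  exact fun w hw => h w (hw.trans hl)

theorem Agree.trans {l : ℕ} {X X' X'' : Oracle} (h : Agree l X X') (h' : Agree l X' X'') :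
    Agree l X X'' := by
  exact fun w hw => (h' w hw).trans (h w hw)

theorem P_congr {l : ℕ} {X X' : Oracle} (h : Agree l X X') {j : ℕ} {x : Word}
    (hx : G.bd j x.length ≤ l) : G.P j X' x = G.P j X x := by
  unfold BSys.P
  refine Pr_congr _ fun r hr => ?_
  rw [(G.loc j X X' x r fun q hq => (h q ((G.qlen j X x r hr q hq).trans hx)).symm).1]

theorem F_congr {l : ℕ} {X X' : Oracle} (h : Agree l X X') {i : ℕ} {x : Word}
    (hx : G.bF i x.length ≤ l) : G.F i X' x = G.F i X x := by
  exact G.locF i X X' x fun q hq => (h q ((G.qFlen i X x q hq).trans hx)).symm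

theorem dens_congr {l : ℕ} {X X' : Oracle} (h : Agree l X X') {b n : ℕ} (hn : b + n + 3 ≤ l) :
    dens X' b n = dens X b n := by
  unfold dens
  refine Pr_congr _ fun r hr => ?_
  rw [h (true :: tag b r) (by rw [length_y, hr]; omega)]

theorem codeOK_congr {l : ℕ} {X X' : Oracle} (h : Agree l X X') {j s k : ℕ} {x : Word}
    (hl : (false :: code j s k x).length ≤ l) (hk : G.bd j x.length ^ 2 ≤ k) :
    CodeOK G X' j s k x ↔ CodeOK G X j s k x := by
  unfold CodeOK
  have h1 : G.bd j x.length ≤ l := by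
    rw [length_code] at hl
    have h2 : G.bd j x.length ≤ G.bd j x.length ^ 2 := Nat.le_self_pow two_ne_zero _
    omega
  rw [h _ hl, P_congr h h1]

theorem viol_congr {l : ℕ} {X X' : Oracle} (h : Agree l X X') {a : ℕ} :
    Viol G a l X' ↔ Viol G a l X := by
  unfold Viol
  constructor
  · rintro ⟨x, hx, hb⟩
    exact ⟨x, hx, by rwa [P_congr h hx] at hb⟩
  · rintro ⟨x, hx, hb⟩
    exact ⟨x, hx, by rwa [P_congr h hx]⟩

theorem Viol.mono {a l l' : ℕ} {X : Oracle} (h : Viol G a l X) (hl : l ≤ l') :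
    Viol G a l' X := by
  obtain ⟨x, hx, hb⟩ := h
  exact ⟨x, hx.trans hl, hb⟩

theorem Ext.refl (a : ℕ) (S : Set ℕ) (m : ℕ) (X : Oracle) : Ext G a S m X m X := by
  exact ⟨le_rfl, fun _ _ => rfl, fun j s k x _ _ h1 h2 _ => absurd h1 (not_lt.2 h2),
    fun j s M n _ _ h1 h2 => absurd h1 (not_lt.2 h2)⟩

theorem Ext.trans {a b : ℕ} {S : Set ℕ} {m l k : ℕ} {X X' X'' : Oracle}
    (h : Ext G a S m X l X') (h' : Ext G b S l X' k X'') (hab : b ≤ a) :
    Ext G b S m X k X'' := by
  refine ⟨h.le.trans h'.le, h.agree.trans (h'.agree.mono h.le), ?_, ?_⟩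
  · intro j s k' x h1 h2 h3 h4 h5
    rcases le_or_gt (false :: OrC.code j s k' x).length l with h6 | h6
    · exact (codeOK_congr h'.agree h6 h5).2
        (h.code j s k' x (lt_of_lt_of_le h1 hab) h2 h3 h6 h5)
    · exact h'.code j s k' x h1 h2 h6 h4 h5
  · intro j s M n h1 h2 h3 h4
    rcases le_or_gt (Nat.pair (Nat.pair j s) M + n + 3) l with h6 | h6
    · rw [dens_congr h'.agree h6]
      exact h.dens j s M n (lt_of_lt_of_le h1 hab) h2 h3 h6
    · exact h'.dens j s M n h1 h2 h6 h4

/-- only the elements of `S` below `a` matter. -/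
theorem Ext.mono {a a' : ℕ} {S S' : Set ℕ} {m l : ℕ} {X X' : Oracle} (h : Ext G a S m X l X')
    (hS : ∀ b ∈ S', b < a' → b ∈ S ∧ b < a) : Ext G a' S' m X l X' := by
  refine ⟨h.le, h.agree, ?_, ?_⟩
  · intro j s k x h1 h2 h3 h4 h5
    obtain ⟨h6, h7⟩ := hS _ h2 h1
    exact h.code j s k x h7 h6 h3 h4 h5
  · intro j s M n h1 h2 h3 h4
    obtain ⟨h6, h7⟩ := hS _ h2 h1
    exact h.dens j s M n h7 h6 h3 h4

theorem Unk.ext {a : ℕ} {S : Set ℕ} {m l : ℕ} {X X' : Oracle} (hU : Unk G S m X)
    (hS : ∀ b ∈ S, b ≤ a) (h : Ext G a S m X l X') : Unk G S l X' := by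
  intro b hb l' X'' h'
  exact hU b hb l' X'' (h.trans h' (hS b hb))

/-- validity gives short questions. -/
theorem bd_le_of_valid {j s k : ℕ} {x : Word} (hk : G.bd j x.length ^ 2 ≤ k) :
    G.bd j x.length ≤ Nat.sqrt (false :: code j s k x).length ∧
      G.bd j x.length + 4 ≤ (false :: code j s k x).length := by
  have h2 : G.bd j x.length ≤ G.bd j x.length ^ 2 := Nat.le_self_pow two_ne_zero _
  rw [length_code]
  refine ⟨?_, by omega⟩
  rw [Nat.le_sqrt, ← pow_two]
  omega

theorem mach_rp (j : ℕ) : mach (2 * j) = j := by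
  unfold mach
  rw [if_pos (by omega)]
  omega

theorem mach_bpp (j s : ℕ) : mach (2 * Nat.pair j s + 1) = j := by
  unfold mach
  have h : (2 * Nat.pair j s + 1) / 2 = Nat.pair j s := by omega
  rw [if_neg (by omega), h, Nat.unpair_pair]

theorem bad_rp (j : ℕ) (p : ℝ) : Bad (2 * j) p ↔ 0 < p ∧ p ≤ 1 / 2 := by
  unfold Bad
  rw [if_pos (by omega)]

theorem bad_bpp (j s : ℕ) (p : ℝ) :
    Bad (2 * Nat.pair j s + 1) p ↔ |p - 1 / 2| < 1 / ((s : ℝ) + 1) := by
  unfold Bad
  have h : (2 * Nat.pair j s + 1) / 2 = Nat.pair j s := by omega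
  rw [if_neg (by omega), h, Nat.unpair_pair]

end OrC
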