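import Mathlib

/-!
# Chains of light steps

PROOF: among the `Y ⊆ U` with `h Y = h ∅` and `g Y ≤ 1 / 2 - γ` take one of maximal cardinality. A
`y ∈ U`, `y ∉ Y`, `y ∉ bad Y` could be added: `g` changes by less than `2 γ`, so it stays
`< 1 / 2 + γ`, hence `≤ 1 / 2 - γ` by `gap`.
-/

set_option autoImplicit false

namespace OrC

theorem chain {α β : Type} [DecidableEq α] (U : Finset α) (g : Finset α → ℝ) (γ : ℝ)
    (h : Finset α → β) (bad : Finset α → Finset α) (gap : ∀ Y ⊆ U, γ ≤ |g Y - 1 / 2|)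
    (step : ∀ Y ⊆ U, ∀ y ∈ U, y ∉ Y → y ∉ bad Y →
      h (insert y Y) = h Y ∧ |g (insert y Y) - g Y| < 2 * γ)
    (start : g ∅ ≤ 1 / 2 - γ) :
    ∃ Y ⊆ U, h Y = h ∅ ∧ g Y ≤ 1 / 2 - γ ∧ U \ Y ⊆ bad Y := by
  classical
  have hne : (U.powerset.filter fun Y => h Y = h ∅ ∧ g Y ≤ 1 / 2 - γ).Nonempty :=
    ⟨∅, Finset.mem_filter.2 ⟨Finset.mem_powerset.2 (Finset.empty_subset U), rfl, start⟩⟩
  obtain ⟨Y, hY, hmax⟩ := Finset.exists_max_image _ Finset.card hne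
  rw [Finset.mem_filter, Finset.mem_powerset] at hY
  refine ⟨Y, hY.1, hY.2.1, hY.2.2, fun y hy => ?_⟩
  rw [Finset.mem_sdiff] at hy
  by_contra hb
  obtain ⟨h1, h2⟩ := step Y hY.1 y hy.1 hy.2 hb
  have hsub : insert y Y ⊆ U := Finset.insert_subset hy.1 hY.1
  have h3 : g (insert y Y) ≤ 1 / 2 - γ := by
    rw [abs_lt] at h2
    rcases le_abs.1 (gap _ hsub) with h4 | h4
    · linarith [h2.2, hY.2.2]
    · linarith
  have h5 := hmax (insert y Y) (Finset.mem_filter.2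
    ⟨Finset.mem_powerset.2 hsub, h1.trans hY.2.1, h3⟩)
  rw [Finset.card_insert_of_notMem hy.2] at h5
  omega

end OrC
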