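import Pool.Agent.Lib.MP_f6efc0_lc.CoreB.Defs

/-!
# Counting coins

PROOF of `sum_pr_le`: the sum is `2^-m` times the sum over `r` of the number of `B ∈ Bs` which meet
`D r`; disjoint sets, so this number is at most `(D r).card ≤ K`.
-/

set_option autoImplicit false

namespace OrC

theorem Pr_le_one (m : ℕ) (S : Word → Prop) : Pr m S ≤ 1 := by
  have h1 := Pr_compl m S
  have h2 := Pr_nonneg m (fun r => ¬ S r)
  linarith

/-- the words of length `m` as a finset -/
private noncomputable def countW (m : ℕ) : Finset Word := (finite_words m (fun _ => True)).toFinset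

private lemma mem_countW (m : ℕ) (r : Word) : r ∈ countW m ↔ r.length = m := by
  unfold countW
  rw [Set.Finite.mem_toFinset]
  simp

private lemma card_countW (m : ℕ) : (countW m).card = 2 ^ m := by
  have h1 : {r : Word | r.length = m}.ncard = (countW m).card := by
    rw [← Set.ncard_coe_finset]
    congr 1
    ext r
    simp [mem_countW]
  rw [← h1, ncard_words]

private lemma pr_eq_filter (m : ℕ) (S : Word → Prop) [DecidablePred S] :
    Pr m S = (((countW m).filter S).card : ℝ) / 2 ^ m := by
  unfold Pr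
  congr 2
  rw [← Set.ncard_coe_finset]
  congr 1
  ext r
  simp [mem_countW]

theorem sum_pr_le (m : ℕ) (D : Word → Finset Word) (K : ℕ)
    (hD : ∀ r : Word, r.length = m → (D r).card ≤ K) (Bs : Finset (Finset Word))
    (hBs : ∀ B ∈ Bs, ∀ B' ∈ Bs, B ≠ B' → Disjoint B B') :
    ∑ B ∈ Bs, Pr m (fun r => ¬ Disjoint (D r) B) ≤ K := by
  classical
  have h1 : ∀ r ∈ countW m, (Bs.filter fun B => ¬ Disjoint (D r) B).card ≤ K := by
    intro r hr
    refine le_trans ?_ (hD r ((mem_countW m r).1 hr))
    have hex : ∀ B ∈ Bs.filter (fun B => ¬ Disjoint (D r) B), ∃ w, w ∈ D r ∧ w ∈ B := by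
      intro B hB
      exact Finset.not_disjoint_iff.1 (Finset.mem_filter.1 hB).2
    choose! w hw using hex
    apply Finset.card_le_card_of_injOn w
    · intro B hB
      exact (hw B hB).1
    · intro B hB B' hB' hww
      by_contra hne
      have h2 := hBs B (Finset.mem_filter.1 hB).1 B' (Finset.mem_filter.1 hB').1 hne
      exact (Finset.disjoint_left.1 h2 (hw B hB).2) (hww ▸ (hw B' hB').2)
  have h2 : ∑ B ∈ Bs, ((countW m).filter fun r => ¬ Disjoint (D r) B).card =
      ∑ r ∈ countW m, (Bs.filter fun B => ¬ Disjoint (D r) B).card := by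
    simp only [Finset.card_filter]
    exact Finset.sum_comm
  have h3 : ∑ B ∈ Bs, ((countW m).filter fun r => ¬ Disjoint (D r) B).card ≤ 2 ^ m * K := by
    rw [h2]
    calc _ ≤ ∑ r ∈ countW m, K := Finset.sum_le_sum h1
      _ = 2 ^ m * K := by rw [Finset.sum_const, card_countW, smul_eq_mul]
  have h4 : ∑ B ∈ Bs, Pr m (fun r => ¬ Disjoint (D r) B) =
      ((∑ B ∈ Bs, ((countW m).filter fun r => ¬ Disjoint (D r) B).card : ℕ) : ℝ) / 2 ^ m := by
    push_cast
    rw [Finset.sum_div]
    exact Finset.sum_congr rfl fun B _ => pr_eq_filter m _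
  rw [h4, div_le_iff₀ (by positivity)]
  calc ((∑ B ∈ Bs, ((countW m).filter fun r => ¬ Disjoint (D r) B).card : ℕ) : ℝ)
      ≤ ((2 ^ m * K : ℕ) : ℝ) := by exact_mod_cast h3
    _ = K * 2 ^ m := by push_cast; ring

private lemma pr_le_add (m : ℕ) (S T E : Word → Prop)
    (h : ∀ r : Word, r.length = m → ¬ E r → S r → T r) : Pr m S ≤ Pr m T + Pr m E := by
  unfold Pr
  rw [← add_div]
  have h1 : {r : Word | r.length = m ∧ S r}.ncard ≤
      {r : Word | r.length = m ∧ T r}.ncard + {r : Word | r.length = m ∧ E r}.ncard := by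
    refine le_trans (Set.ncard_le_ncard ?_ ((finite_words m T).union (finite_words m E)))
      (Set.ncard_union_le _ _)
    rintro r ⟨h1, h2⟩
    by_cases h3 : E r
    · exact Or.inr ⟨h1, h3⟩
    · exact Or.inl ⟨h1, h r h1 h3 h2⟩
  have h2 : (({r : Word | r.length = m ∧ S r}.ncard : ℕ) : ℝ) ≤
      ({r : Word | r.length = m ∧ T r}.ncard : ℝ) + ({r : Word | r.length = m ∧ E r}.ncard : ℝ) := by
    exact_mod_cast h1
  gcongr

theorem pr_diff (m : ℕ) (S T E : Word → Prop)
    (h : ∀ r : Word, r.length = m → ¬ E r → (S r ↔ T r)) : |Pr m S - Pr m T| ≤ Pr m E := by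
  have h1 := pr_le_add m S T E (fun r hr he hs => (h r hr he).1 hs)
  have h2 := pr_le_add m T S E (fun r hr he hs => (h r hr he).2 hs)
  rw [abs_le]
  constructor <;> linarith

/-- a positive probability has a witness. -/
theorem exists_of_pr_pos {m : ℕ} {S : Word → Prop} (h : 0 < Pr m S) :
    ∃ r : Word, r.length = m ∧ S r := by
  by_contra hcon
  push Not at hcon
  have h1 : {r : Word | r.length = m ∧ S r} = ∅ := by
    ext r
    exact iff_of_false (fun h2 => hcon r h2.1 h2.2) (Set.notMem_empty r)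
  unfold Pr at h
  rw [h1] at h
  simp at h

/-- the probability as a quotient of cardinalities. -/
theorem pr_eq_card (m : ℕ) (Y : Finset Word) :
    Pr m (fun r => r ∈ Y) = ((Y.filter fun r => r.length = m).card : ℝ) / 2 ^ m := by
  unfold Pr
  congr 2
  rw [← Set.ncard_coe_finset]
  congr 1
  ext r
  simp [and_comm]

end OrC
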