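import Mathlib

/-!
# Quasi-polynomial depth

PROOF of `dd_rec`: with `λ = Nat.log 2 L ≥ 6` one has `Nat.log 2 (Nat.sqrt L) ≤ λ / 2` and
`Nat.sqrt L < 2 ^ (λ / 2 + 1)`, so `(2 e + 1) e ≤ 4 e ^ 2 ≤ 2 ^ (2 + (λ + 2) + 4 (λ / 2 + 3) ^ 2)` and
`λ + 4 + (λ + 6) ^ 2 ≤ 2 (λ + 3) ^ 2` as `λ ^ 2 ≥ λ + 22`. (If `e = 0` trivial.)
PROOF of `dd_small`: with `L = (n + 2) ^ c` the exponent is `O((log n) ^ 2)`; e.g. use
`(Nat.log 2 (n + 2)) ^ k = o(n)`.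
-/

set_option autoImplicit false

namespace OrC

/-- Bound for the number of `y` on which the value of a word of length `L` depends. -/
def dd (L : ℕ) : ℕ := 2 ^ (2 * (Nat.log 2 L + 3) ^ 2)

theorem dd_pos (L : ℕ) : 1 ≤ dd L := Nat.one_le_two_pow

theorem dd_mono : Monotone dd := by
  intro a b hab
  have h : Nat.log 2 a ≤ Nat.log 2 b := Nat.log_mono_right hab
  exact Nat.pow_le_pow_right (by norm_num)
    (Nat.mul_le_mul_left _ (Nat.pow_le_pow_left (Nat.add_le_add_right h 3) 2))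

theorem dd_rec {L : ℕ} (hL : 64 ≤ L) :
    (2 * (Nat.sqrt L * dd (Nat.sqrt L)) + 1) * (Nat.sqrt L * dd (Nat.sqrt L)) ≤ dd L := by
  have hsq : Nat.sqrt L * Nat.sqrt L ≤ L := Nat.sqrt_le L
  have hs8 : 8 ≤ Nat.sqrt L := Nat.le_sqrt.mpr (by omega)
  have hs0 : Nat.sqrt L ≠ 0 := by omega
  have hL0 : L ≠ 0 := by omega
  have hl6 : 6 ≤ Nat.log 2 L := Nat.le_log_of_pow_le (by norm_num) (by simpa using hL)
  have hmu : 2 ^ Nat.log 2 (Nat.sqrt L) ≤ Nat.sqrt L := Nat.pow_log_le_self 2 hs0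
  have hmu1 : Nat.sqrt L < 2 ^ (Nat.log 2 (Nat.sqrt L) + 1) :=
    Nat.lt_pow_succ_log_self (by norm_num) _
  have hla1 : L < 2 ^ (Nat.log 2 L + 1) := Nat.lt_pow_succ_log_self (by norm_num) _
  have hml : 2 * Nat.log 2 (Nat.sqrt L) ≤ Nat.log 2 L := by
    have h1 : 2 ^ (2 * Nat.log 2 (Nat.sqrt L)) ≤ L := by
      calc 2 ^ (2 * Nat.log 2 (Nat.sqrt L))
          = 2 ^ Nat.log 2 (Nat.sqrt L) * 2 ^ Nat.log 2 (Nat.sqrt L) := by
            rw [two_mul, pow_add]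
        _ ≤ Nat.sqrt L * Nat.sqrt L := Nat.mul_le_mul hmu hmu
        _ ≤ L := hsq
    have h2 : 2 * Nat.log 2 (Nat.sqrt L) < Nat.log 2 L + 1 :=
      (Nat.pow_lt_pow_iff_right (by norm_num : 1 < 2)).mp (lt_of_le_of_lt h1 hla1)
    omega
  generalize hmd : Nat.log 2 (Nat.sqrt L) = mu at *
  generalize hld : Nat.log 2 L = la at *
  have hdd : dd (Nat.sqrt L) = 2 ^ (2 * (mu + 3) ^ 2) := by rw [dd, hmd]
  have hddL : dd L = 2 ^ (2 * (la + 3) ^ 2) := by rw [dd, hld]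
  have he : Nat.sqrt L * dd (Nat.sqrt L) ≤ 2 ^ (mu + 1 + 2 * (mu + 3) ^ 2) := by
    rw [hdd, pow_add]
    exact Nat.mul_le_mul_right _ hmu1.le
  have he1 : 1 ≤ Nat.sqrt L * dd (Nat.sqrt L) :=
    Nat.mul_pos (by omega) (dd_pos _)
  generalize Nat.sqrt L * dd (Nat.sqrt L) = e at *
  rw [hddL]
  calc (2 * e + 1) * e ≤ (4 * e) * e := Nat.mul_le_mul_right _ (by omega)
    _ = 4 * (e * e) := by ring
    _ ≤ 4 * (2 ^ (mu + 1 + 2 * (mu + 3) ^ 2) * 2 ^ (mu + 1 + 2 * (mu + 3) ^ 2)) :=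
        Nat.mul_le_mul_left _ (Nat.mul_le_mul he he)
    _ = 2 ^ (2 + (mu + 1 + 2 * (mu + 3) ^ 2) + (mu + 1 + 2 * (mu + 3) ^ 2)) := by
        rw [pow_add, pow_add]
        norm_num
        ring
    _ ≤ 2 ^ (2 * (la + 3) ^ 2) := by
        apply Nat.pow_le_pow_right (by norm_num)
        nlinarith [Nat.mul_le_mul hml hml, Nat.mul_le_mul hl6 hl6]

private theorem depth_sq_le (C : ℕ) : ∃ m₀, ∀ m, m₀ ≤ m → C * (m + 1) ^ 2 ≤ 2 ^ m := by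
  have h := tendsto_pow_const_div_const_pow_of_one_lt 2 (by norm_num : (1 : ℝ) < 2)
  have hpos : (0 : ℝ) < 1 / (2 * (C + 1)) := by positivity
  have h2 := (h.eventually (gt_mem_nhds hpos))
  obtain ⟨m₀, hm₀⟩ := Filter.eventually_atTop.mp h2
  refine ⟨m₀, fun m hm => ?_⟩
  have h3 := hm₀ (m + 1) (by omega)
  rw [div_lt_div_iff₀ (by positivity) (by positivity)] at h3
  have h4 : ((C * (m + 1) ^ 2 : ℕ) : ℝ) ≤ ((2 ^ m : ℕ) : ℝ) := by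
    push_cast at h3 ⊢
    rw [pow_succ (2 : ℝ) m] at h3
    have h5 : (0 : ℝ) ≤ ((m : ℝ) + 1) ^ 2 := by positivity
    nlinarith
  exact_mod_cast h4

theorem dd_small (c K : ℕ) : ∃ n₀, ∀ n, n₀ ≤ n →
    K * ((n + 2) ^ c * dd ((n + 2) ^ c)) ≤ 2 ^ (n + 1) := by
  obtain ⟨m₀, hm₀⟩ := depth_sq_le (K + c + 2 * (c + 3) ^ 2 + 1)
  refine ⟨2 ^ m₀, fun n hn => ?_⟩
  have hn0 : n + 2 ≠ 0 := by omega
  have hl : m₀ ≤ Nat.log 2 (n + 2) := Nat.le_log_of_pow_le (by norm_num) (by omega)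
  have hle : 2 ^ Nat.log 2 (n + 2) ≤ n + 2 := Nat.pow_log_le_self 2 hn0
  have hlt : n + 2 < 2 ^ (Nat.log 2 (n + 2) + 1) := Nat.lt_pow_succ_log_self (by norm_num) _
  have hm := hm₀ _ hl
  generalize Nat.log 2 (n + 2) = l at *
  have hpw : (n + 2) ^ c ≤ 2 ^ (c * (l + 1)) := by
    calc (n + 2) ^ c ≤ (2 ^ (l + 1)) ^ c := Nat.pow_le_pow_left hlt.le c
      _ = 2 ^ (c * (l + 1)) := by rw [← pow_mul, mul_comm]
  have hlog : Nat.log 2 ((n + 2) ^ c) ≤ c * (l + 1) := by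
    calc Nat.log 2 ((n + 2) ^ c) ≤ Nat.log 2 (2 ^ (c * (l + 1))) := Nat.log_mono_right hpw
      _ = c * (l + 1) := Nat.log_pow (by norm_num) _
  have hdd : dd ((n + 2) ^ c) ≤ 2 ^ (2 * (c * (l + 1) + 3) ^ 2) := by
    apply Nat.pow_le_pow_right (by norm_num)
    exact Nat.mul_le_mul_left _ (Nat.pow_le_pow_left (Nat.add_le_add_right hlog 3) 2)
  calc K * ((n + 2) ^ c * dd ((n + 2) ^ c))
      ≤ 2 ^ K * (2 ^ (c * (l + 1)) * 2 ^ (2 * (c * (l + 1) + 3) ^ 2)) :=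
        Nat.mul_le_mul Nat.lt_two_pow_self.le (Nat.mul_le_mul hpw hdd)
    _ = 2 ^ (K + (c * (l + 1) + 2 * (c * (l + 1) + 3) ^ 2)) := by rw [pow_add, pow_add]
    _ ≤ 2 ^ (n + 1) := by
        apply Nat.pow_le_pow_right (by norm_num)
        have h1 : K + (c * (l + 1) + 2 * (c * (l + 1) + 3) ^ 2) + 1
            ≤ (K + c + 2 * (c + 3) ^ 2 + 1) * (l + 1) ^ 2 := by
          have ha : 1 ≤ (l + 1) ^ 2 := Nat.one_le_pow _ _ (by omega)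
          have hb : l + 1 ≤ (l + 1) ^ 2 := Nat.le_self_pow (by norm_num) _
          have hc : (c * (l + 1) + 3) ^ 2 ≤ (c + 3) ^ 2 * (l + 1) ^ 2 := by
            rw [← mul_pow]
            exact Nat.pow_le_pow_left (by nlinarith) 2
          nlinarith [Nat.mul_le_mul_left K ha, Nat.mul_le_mul_left c hb]
        omega

end OrC
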