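import Mathlib

/-!
# The decision tree

A certificate is a pair `c = (C, P)` of finite sets, `P ⊆ C`; `Y` matches it if `Y ∩ C = P`.

PROOF (the tree): knowledge `K` (finite set), start `K = ∅`; at most `2 e + 1` rounds.  A round:
choose a certificate `(C, P)` of `𝒞` CONSISTENT with the knowledge, `P ∩ K = C ∩ (Y ∩ K)` (the choice
depends only on `K` and `Y ∩ K`); if there is none stop with the output `false`, otherwise
`K := K ∪ C`.  After `2 e + 1` rounds the output is `true`.  `K Y` = the final knowledge, at most
`(2 e + 1) e` elements.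
* If `Y` matches some certificate, this one is always consistent, so the output is `true`.
* If `Y` matches none: in round `i` the set `B i = {y ∈ C i : y ∈ Y ↔ y ∉ P i}` is nonempty (`Y` does
  not match), disjoint from the old `K` (consistency), so the `B i` are pairwise disjoint, at most
  `e` elements each, and `symmDiff Y (B i)` matches `(C i, P i)`. Hence there are at most `2 e`
  rounds which do not stop, i.e. the output is `false`.
* If `Y'` agrees with `Y` on `K Y`, the two computations are equal (induction on the rounds; the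
  knowledge only grows).
-/

set_option autoImplicit false

namespace OrC

/-- `Y` matches the certificate `c`. -/
def Matches {α : Type} [DecidableEq α] (c : Finset α × Finset α) (Y : Finset α) : Prop :=
  Y ∩ c.1 = c.2

/-- The certificate `c` is consistent with the knowledge `K`, where `P` is the known part of the
unknown set. -/
private def TreeCons {α : Type} [DecidableEq α] (K P : Finset α) (c : Finset α × Finset α) : Prop :=
  c.2 ∩ K = c.1 ∩ P

open Classical in
/-- The choice of the next certificate. -/
private noncomputable def treePick {α : Type} [DecidableEq α] (C : Set (Finset α × Finset α))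
    (K P : Finset α) : Option (Finset α × Finset α) :=
  if h : ∃ c ∈ C, TreeCons K P c then some h.choose else none

/-- One round. -/
private noncomputable def treeStep {α : Type} [DecidableEq α] (C : Set (Finset α × Finset α))
    (Y K : Finset α) : Finset α :=
  match treePick C K (Y ∩ K) with
  | none => K
  | some c => K ∪ c.1

/-- The knowledge after `i` rounds. -/
private noncomputable def treeKnow {α : Type} [DecidableEq α] (C : Set (Finset α × Finset α))
    (Y : Finset α) : ℕ → Finset α
  | 0 => ∅
  | i + 1 => treeStep C Y (treeKnow C Y i)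

private theorem treePick_some {α : Type} [DecidableEq α] {C : Set (Finset α × Finset α)}
    {K P : Finset α} {c : Finset α × Finset α} (h : treePick C K P = some c) :
    c ∈ C ∧ TreeCons K P c := by
  unfold treePick at h
  split_ifs at h with h1
  · have h2 : h1.choose = c := by simpa using h
    rw [← h2]
    exact h1.choose_spec

private theorem treePick_ne_none {α : Type} [DecidableEq α] {C : Set (Finset α × Finset α)}
    {K P : Finset α} {c : Finset α × Finset α} (hc : c ∈ C) (h : TreeCons K P c) :
    treePick C K P ≠ none := by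
  unfold treePick
  have h1 : ∃ c ∈ C, TreeCons K P c := ⟨c, hc, h⟩
  rw [dif_pos h1]
  simp

private theorem treeStep_none {α : Type} [DecidableEq α] {C : Set (Finset α × Finset α)}
    {Y K : Finset α} (h : treePick C K (Y ∩ K) = none) : treeStep C Y K = K := by
  unfold treeStep
  rw [h]

private theorem treeStep_some {α : Type} [DecidableEq α] {C : Set (Finset α × Finset α)}
    {Y K : Finset α} {c : Finset α × Finset α} (h : treePick C K (Y ∩ K) = some c) :
    treeStep C Y K = K ∪ c.1 := by
  unfold treeStep
  rw [h]

private theorem subset_treeStep {α : Type} [DecidableEq α] (C : Set (Finset α × Finset α))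
    (Y K : Finset α) : K ⊆ treeStep C Y K := by
  rcases h : treePick C K (Y ∩ K) with _ | c
  · rw [treeStep_none h]
  · rw [treeStep_some h]
    exact Finset.subset_union_left

private theorem treeStep_card {α : Type} [DecidableEq α] (C : Set (Finset α × Finset α)) (e : ℕ)
    (hC : ∀ c ∈ C, c.2 ⊆ c.1 ∧ c.1.card ≤ e) (Y K : Finset α) :
    (treeStep C Y K).card ≤ K.card + e := by
  rcases h : treePick C K (Y ∩ K) with _ | c
  · rw [treeStep_none h]
    omega
  · rw [treeStep_some h]
    have h1 := (hC c (treePick_some h).1).2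
    have h2 := Finset.card_union_le K c.1
    omega

private theorem treeKnow_mono {α : Type} [DecidableEq α] (C : Set (Finset α × Finset α))
    (Y : Finset α) {i j : ℕ} (hij : i ≤ j) : treeKnow C Y i ⊆ treeKnow C Y j := by
  induction j, hij using Nat.le_induction with
  | base => exact Finset.Subset.refl _
  | succ j _ ih => exact ih.trans (subset_treeStep C Y _)

private theorem treeKnow_card {α : Type} [DecidableEq α] (C : Set (Finset α × Finset α)) (e : ℕ)
    (hC : ∀ c ∈ C, c.2 ⊆ c.1 ∧ c.1.card ≤ e) (Y : Finset α) (i : ℕ) :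
    (treeKnow C Y i).card ≤ i * e := by
  induction i with
  | zero => simp [treeKnow]
  | succ i ih =>
    have h1 := treeStep_card C e hC Y (treeKnow C Y i)
    have h2 : treeKnow C Y (i + 1) = treeStep C Y (treeKnow C Y i) := rfl
    rw [h2, Nat.succ_mul]
    omega

/-- If the choice fails in round `i`, it fails in all later rounds. -/
private theorem treePick_none_of_le {α : Type} [DecidableEq α] (C : Set (Finset α × Finset α))
    (Y : Finset α) {i j : ℕ} (hij : i ≤ j)
    (h : treePick C (treeKnow C Y i) (Y ∩ treeKnow C Y i) = none) :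
    treePick C (treeKnow C Y j) (Y ∩ treeKnow C Y j) = none := by
  induction j, hij using Nat.le_induction with
  | base => exact h
  | succ j _ ih =>
    have h2 : treeKnow C Y (j + 1) = treeKnow C Y j := treeStep_none ih
    rw [h2]
    exact ih

private theorem treeKnow_congr {α : Type} [DecidableEq α] (C : Set (Finset α × Finset α))
    (Y Y' : Finset α) (N : ℕ) (h : Y ∩ treeKnow C Y N = Y' ∩ treeKnow C Y N) {i : ℕ} (hi : i ≤ N) :
    treeKnow C Y' i = treeKnow C Y i := by
  induction i with
  | zero => rfl
  | succ i ih =>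
    have h1 := ih (by omega)
    have h2 : treeKnow C Y' (i + 1) = treeStep C Y' (treeKnow C Y' i) := rfl
    have h3 : treeKnow C Y (i + 1) = treeStep C Y (treeKnow C Y i) := rfl
    have h4 : treeKnow C Y i ⊆ treeKnow C Y N := treeKnow_mono C Y (by omega)
    have h5 : Y ∩ treeKnow C Y i = Y' ∩ treeKnow C Y i := by
      ext x
      have h6 := Finset.ext_iff.mp h x
      simp only [Finset.mem_inter] at h6 ⊢
      constructor
      · rintro ⟨hx, hk⟩
        exact ⟨(h6.mp ⟨hx, h4 hk⟩).1, hk⟩
      · rintro ⟨hx, hk⟩
        exact ⟨(h6.mpr ⟨hx, h4 hk⟩).1, hk⟩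
    rw [h2, h3, h1]
    unfold treeStep
    rw [h5]

/-- The set of the wrong places of the certificate `c`. -/
private def treeWrong {α : Type} [DecidableEq α] (Y : Finset α) (c : Finset α × Finset α) :
    Finset α :=
  symmDiff (Y ∩ c.1) c.2

private theorem treeWrong_subset {α : Type} [DecidableEq α] (Y : Finset α)
    (c : Finset α × Finset α) (hc : c.2 ⊆ c.1) : treeWrong Y c ⊆ c.1 := by
  intro x hx
  unfold treeWrong at hx
  rw [Finset.mem_symmDiff] at hx
  rcases hx with ⟨h1, _⟩ | ⟨h1, _⟩
  · exact (Finset.mem_inter.mp h1).2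
  · exact hc h1

private theorem treeWrong_matches {α : Type} [DecidableEq α] (Y : Finset α)
    (c : Finset α × Finset α) (hc : c.2 ⊆ c.1) : Matches c (symmDiff Y (treeWrong Y c)) := by
  unfold Matches treeWrong
  ext x
  have h := @hc x
  simp only [Finset.mem_inter, Finset.mem_symmDiff]
  tauto

private theorem treeWrong_disjoint {α : Type} [DecidableEq α] (Y K : Finset α)
    (c : Finset α × Finset α) (hc : c.2 ⊆ c.1) (h : TreeCons K (Y ∩ K) c) :
    Disjoint K (treeWrong Y c) := by
  rw [Finset.disjoint_left]
  intro x hx hw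
  unfold treeWrong at hw
  rw [Finset.mem_symmDiff] at hw
  have h1 := Finset.ext_iff.mp h x
  simp only [Finset.mem_inter] at h1 hw
  have h2 := @hc x
  tauto

theorem exists_tree {α : Type} [DecidableEq α] (C : Set (Finset α × Finset α)) (e : ℕ)
    (hC : ∀ c ∈ C, c.2 ⊆ c.1 ∧ c.1.card ≤ e) :
    ∃ (T : Finset α → Bool) (K : Finset α → Finset α),
      (∀ Y, (∃ c ∈ C, Matches c Y) → T Y = true) ∧
      (∀ Y, (¬ ∃ c ∈ C, Matches c Y) →
        (∀ Bs : Finset (Finset α),
          (∀ B ∈ Bs, B.Nonempty ∧ B.card ≤ e ∧ ∃ c ∈ C, Matches c (symmDiff Y B)) →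
          (∀ B ∈ Bs, ∀ B' ∈ Bs, B ≠ B' → Disjoint B B') → Bs.card ≤ 2 * e) → T Y = false) ∧
      (∀ Y Y', Y ∩ K Y = Y' ∩ K Y → T Y' = T Y) ∧
      ∀ Y, (K Y).card ≤ (2 * e + 1) * e := by
  classical
  refine ⟨fun Y => (treePick C (treeKnow C Y (2 * e)) (Y ∩ treeKnow C Y (2 * e))).isSome,
    fun Y => treeKnow C Y (2 * e + 1), ?_, ?_, ?_, ?_⟩
  · rintro Y ⟨c, hc, hm⟩
    show (treePick C (treeKnow C Y (2 * e)) (Y ∩ treeKnow C Y (2 * e))).isSome = true
    rw [Option.isSome_iff_ne_none]
    apply treePick_ne_none hc
    unfold Matches at hm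
    unfold TreeCons
    rw [← hm]
    ext x
    simp only [Finset.mem_inter]
    tauto
  · intro Y hno hBs
    by_contra hT
    have hT1 : treePick C (treeKnow C Y (2 * e)) (Y ∩ treeKnow C Y (2 * e)) ≠ none := by
      simpa using hT
    have hall : ∀ i, i ≤ 2 * e → ∃ c,
        treePick C (treeKnow C Y i) (Y ∩ treeKnow C Y i) = some c := by
      intro i hi
      rw [← Option.ne_none_iff_exists']
      intro h
      exact hT1 (treePick_none_of_le C Y hi h)
    choose! cert hcert using hall
    set B : ℕ → Finset α := fun i => treeWrong Y (cert i) with hB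
    have hmem : ∀ i, i ≤ 2 * e → cert i ∈ C := fun i hi => (treePick_some (hcert i hi)).1
    have hcons : ∀ i, i ≤ 2 * e → TreeCons (treeKnow C Y i) (Y ∩ treeKnow C Y i) (cert i) :=
      fun i hi => (treePick_some (hcert i hi)).2
    have hne : ∀ i, i ≤ 2 * e → (B i).Nonempty := by
      intro i hi
      rw [Finset.nonempty_iff_ne_empty]
      intro h
      apply hno
      refine ⟨cert i, hmem i hi, ?_⟩
      have h1 := treeWrong_matches Y (cert i) (hC _ (hmem i hi)).1
      have h2 : treeWrong Y (cert i) = ⊥ := h
      rw [h2, symmDiff_bot] at h1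
      exact h1
    have hsub : ∀ i, i ≤ 2 * e → B i ⊆ treeKnow C Y (i + 1) := by
      intro i hi
      have h1 : treeKnow C Y (i + 1) = treeKnow C Y i ∪ (cert i).1 := treeStep_some (hcert i hi)
      rw [h1]
      exact (treeWrong_subset Y (cert i) (hC _ (hmem i hi)).1).trans Finset.subset_union_right
    have hdis : ∀ i j, i < j → j ≤ 2 * e → Disjoint (B i) (B j) := by
      intro i j hij hj
      have h1 : Disjoint (treeKnow C Y j) (B j) :=
        treeWrong_disjoint Y _ (cert j) (hC _ (hmem j hj)).1 (hcons j hj)
      have h2 : B i ⊆ treeKnow C Y j :=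
        (hsub i (by omega)).trans (treeKnow_mono C Y (by omega))
      exact Finset.disjoint_of_subset_left h2 h1
    have hdis2 : ∀ i j, i ≤ 2 * e → j ≤ 2 * e → i ≠ j → Disjoint (B i) (B j) := by
      intro i j hi hj hij
      rcases lt_or_gt_of_ne hij with h | h
      · exact hdis i j h hj
      · exact (hdis j i h hi).symm
    have hinj : Set.InjOn B (Finset.range (2 * e + 1) : Set ℕ) := by
      intro i hi j hj hij
      by_contra hne2
      have hi1 : i ≤ 2 * e := by
        have := Finset.mem_range.mp (Finset.mem_coe.mp hi)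
        omega
      have hj1 : j ≤ 2 * e := by
        have := Finset.mem_range.mp (Finset.mem_coe.mp hj)
        omega
      have h1 := hdis2 i j hi1 hj1 hne2
      rw [← hij, disjoint_self] at h1
      exact (hne i hi1).ne_empty h1
    have hcard : ((Finset.range (2 * e + 1)).image B).card = 2 * e + 1 := by
      rw [Finset.card_image_of_injOn hinj, Finset.card_range]
    have hle := hBs ((Finset.range (2 * e + 1)).image B) ?_ ?_
    · omega
    · intro B' hB'
      obtain ⟨i, hi, rfl⟩ := Finset.mem_image.mp hB'
      have hi1 : i ≤ 2 * e := by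
        have := Finset.mem_range.mp hi
        omega
      refine ⟨hne i hi1, ?_, cert i, hmem i hi1, ?_⟩
      · exact (Finset.card_le_card (treeWrong_subset Y (cert i) (hC _ (hmem i hi1)).1)).trans
          (hC _ (hmem i hi1)).2
      · exact treeWrong_matches Y (cert i) (hC _ (hmem i hi1)).1
    · intro B1 hB1 B2 hB2 hne2
      obtain ⟨i, hi, rfl⟩ := Finset.mem_image.mp hB1
      obtain ⟨j, hj, rfl⟩ := Finset.mem_image.mp hB2
      have hi1 : i ≤ 2 * e := by
        have := Finset.mem_range.mp hi
        omega
      have hj1 : j ≤ 2 * e := by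
        have := Finset.mem_range.mp hj
        omega
      exact hdis2 i j hi1 hj1 (fun h => hne2 (by rw [h]))
  · intro Y Y' h
    show (treePick C (treeKnow C Y' (2 * e)) (Y' ∩ treeKnow C Y' (2 * e))).isSome =
      (treePick C (treeKnow C Y (2 * e)) (Y ∩ treeKnow C Y (2 * e))).isSome
    have h1 : treeKnow C Y' (2 * e) = treeKnow C Y (2 * e) :=
      treeKnow_congr C Y Y' (2 * e + 1) h (by omega)
    have h4 : treeKnow C Y (2 * e) ⊆ treeKnow C Y (2 * e + 1) := treeKnow_mono C Y (by omega)
    have h5 : Y ∩ treeKnow C Y (2 * e) = Y' ∩ treeKnow C Y (2 * e) := by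
      ext x
      have h6 := Finset.ext_iff.mp h x
      simp only [Finset.mem_inter] at h6 ⊢
      constructor
      · rintro ⟨hx, hk⟩
        exact ⟨(h6.mp ⟨hx, h4 hk⟩).1, hk⟩
      · rintro ⟨hx, hk⟩
        exact ⟨(h6.mpr ⟨hx, h4 hk⟩).1, hk⟩
    rw [h1, h5]
  · intro Y
    exact treeKnow_card C e hC Y (2 * e + 1)

end OrC
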