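import Pool.Agent.Lib.MP_f6efc0_lc.CoreB.Fix
import Pool.Agent.Lib.MP_f6efc0_lc.CoreB.Tree
import Pool.Agent.Lib.MP_f6efc0_lc.CoreB.Depth
import Pool.Agent.Lib.MP_f6efc0_lc.CoreB.Basic

/-!
# The family of worlds `Z_Y`

A family `f` gives for every word `w` and every finite set `Y` a value and a finite set of words
(`r ∈ Y`?) on which the value depends.

PROOF of `exists_fam`: `exists_fix` with `β = Finset Word → Bool × Finset Word` and the rule
* `|w| ≤ m`: `(X w, ∅)`;
* `w = true :: tag b r`, `|r| = n + 1`: `(r ∈ Y, {r})`;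
* `w = false :: code j s k x`, `2 j ∈ S`, `G.bd j |x| ^ 2 ≤ k`: the tree of `exists_tree` for the
  certificates `certs G j x (ew |w|) f` (with `T`, `K` chosen); `K Y` has at most
  `(2 e + 1) e ≤ dd |w|` elements by `dd_rec`;
* otherwise `(false, ∅)`.
The rule depends only on `f` at shorter words: the runs of `j` on `x` ask words of length
`≤ G.bd j |x| < |w|` (`qlen`, `bd_le_of_valid`), so `loc` applies.
-/

set_option autoImplicit false

namespace OrC

/-- Families of worlds with dependency sets. -/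
abbrev Fm := Word → Finset Word → Bool × Finset Word

/-- The world of `Y`. -/
def world (f : Fm) (Y : Finset Word) : Oracle := fun w => (f w Y).1

/-- The set on which the answers to the questions `L` depend. -/
def depOf (f : Fm) (L : List Word) (Y : Finset Word) : Finset Word :=
  L.toFinset.biUnion fun q => (f q Y).2

/-- The set on which the run of machine `j` on `x` with coins `r` depends. -/
def depRun (G : BSys) (f : Fm) (j : ℕ) (x r : Word) (Y : Finset Word) : Finset Word :=
  depOf f (G.qst j (world f Y) x r) Y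

/-- The certificates for `P_j(x) > 0`, of size at most `e`. -/
def certs (G : BSys) (j : ℕ) (x : Word) (e : ℕ) (f : Fm) : Set (Finset Word × Finset Word) :=
  {c | c.1.card ≤ e ∧ ∃ (Y₁ : Finset Word) (r : Word), r.length = G.rl j x.length ∧
    G.acc j (world f Y₁) x r = true ∧ c.1 = depRun G f j x r Y₁ ∧ c.2 = Y₁ ∩ c.1}

/-- Size of the certificates of a code word of length `L`. -/
def ew (L : ℕ) : ℕ := Nat.sqrt L * dd (Nat.sqrt L)

/-- The defining properties of the family `Z_Y` for the state `(m, X, S)` and the level `n` of the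
`Y`-set number `b`. -/
structure IsFam (G : BSys) (S : Set ℕ) (m : ℕ) (X : Oracle) (b n : ℕ) (f : Fm) : Prop where
  old : ∀ w : Word, w.length ≤ m → ∀ Y, f w Y = (X w, ∅)
  yes : ∀ r : Word, r.length = n + 1 → m < (true :: tag b r).length → ∀ Y,
    f (true :: tag b r) Y = (decide (r ∈ Y), {r})
  no : ∀ (b' : ℕ) (r : Word), m < (true :: tag b' r).length → ¬ (b' = b ∧ r.length = n + 1) →
    ∀ Y, f (true :: tag b' r) Y = (false, ∅)
  one : ∀ j s k x, 2 * j ∈ S → m < (false :: code j s k x).length → G.bd j x.length ^ 2 ≤ k →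
    ∀ Y, (∃ c ∈ certs G j x (ew (false :: code j s k x).length) f, Matches c Y) →
      (f (false :: code j s k x) Y).1 = true
  zero : ∀ j s k x, 2 * j ∈ S → m < (false :: code j s k x).length → G.bd j x.length ^ 2 ≤ k →
    ∀ Y, (¬ ∃ c ∈ certs G j x (ew (false :: code j s k x).length) f, Matches c Y) →
      (∀ Bs : Finset (Finset Word),
        (∀ B ∈ Bs, B.Nonempty ∧ B.card ≤ ew (false :: code j s k x).length ∧
          ∃ c ∈ certs G j x (ew (false :: code j s k x).length) f, Matches c (symmDiff Y B)) →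
        (∀ B ∈ Bs, ∀ B' ∈ Bs, B ≠ B' → Disjoint B B') →
        Bs.card ≤ 2 * ew (false :: code j s k x).length) →
      (f (false :: code j s k x) Y).1 = false
  card : ∀ w Y, (f w Y).2.card ≤ dd w.length
  loc : ∀ w Y Y', Y ∩ (f w Y).2 = Y' ∩ (f w Y).2 → (f w Y').1 = (f w Y).1

/-- A tree function chosen for a set of certificates (junk if the certificates are too large). -/
private theorem fam_tr (C : Set (Finset Word × Finset Word)) (e : ℕ) :
    ∃ t : Finset Word → Bool × Finset Word, (∀ c ∈ C, c.2 ⊆ c.1 ∧ c.1.card ≤ e) →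
      (∀ Y, (∃ c ∈ C, Matches c Y) → (t Y).1 = true) ∧
      (∀ Y, (¬ ∃ c ∈ C, Matches c Y) →
        (∀ Bs : Finset (Finset Word),
          (∀ B ∈ Bs, B.Nonempty ∧ B.card ≤ e ∧ ∃ c ∈ C, Matches c (symmDiff Y B)) →
          (∀ B ∈ Bs, ∀ B' ∈ Bs, B ≠ B' → Disjoint B B') → Bs.card ≤ 2 * e) → (t Y).1 = false) ∧
      (∀ Y Y', Y ∩ (t Y).2 = Y' ∩ (t Y).2 → (t Y').1 = (t Y).1) ∧
      ∀ Y, (t Y).2.card ≤ (2 * e + 1) * e := by
  by_cases hC : ∀ c ∈ C, c.2 ⊆ c.1 ∧ c.1.card ≤ e
  · obtain ⟨T, K, h1, h2, h3, h4⟩ := exists_tree C e hC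
    exact ⟨fun Y => (T Y, K Y), fun _ => ⟨h1, h2, h3, h4⟩⟩
  · exact ⟨fun _ => (false, ∅), fun h => absurd h hC⟩

/-- the chosen tree -/
private noncomputable def famT (C : Set (Finset Word × Finset Word)) (e : ℕ) :
    Finset Word → Bool × Finset Word := Classical.choose (fam_tr C e)

private theorem certs_ok (G : BSys) (j : ℕ) (x : Word) (e : ℕ) (f : Fm) :
    ∀ c ∈ certs G j x e f, c.2 ⊆ c.1 ∧ c.1.card ≤ e := by
  rintro c ⟨h, Y₁, r, -, -, -, h2⟩
  refine ⟨?_, h⟩
  rw [h2]
  exact Finset.inter_subset_right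

private theorem certs_sub (G : BSys) (j : ℕ) (x : Word) (e L : ℕ) (f g : Fm)
    (hL : G.bd j x.length < L) (h : ∀ v : Word, v.length < L → f v = g v) :
    certs G j x e f ⊆ certs G j x e g := by
  rintro c ⟨h0, Y₁, r, hr, ha, h1, h2⟩
  have hq : ∀ q ∈ G.qst j (world f Y₁) x r, f q = g q := fun q hq =>
    h q ((G.qlen j (world f Y₁) x r hr q hq).trans_lt hL)
  have hw : ∀ q ∈ G.qst j (world f Y₁) x r, world f Y₁ q = world g Y₁ q := fun q hq' => by
    simp only [world, hq q hq']
  obtain ⟨e1, e2⟩ := G.loc j (world f Y₁) (world g Y₁) x r hw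
  have hd : depRun G g j x r Y₁ = depRun G f j x r Y₁ := by
    simp only [depRun, depOf, e2]
    refine Finset.biUnion_congr rfl fun q hq' => ?_
    rw [hq q (List.mem_toFinset.1 hq')]
  exact ⟨h0, Y₁, r, hr, by rw [e1]; exact ha, by rw [hd]; exact h1, h2⟩

private theorem certs_congr (G : BSys) (j : ℕ) (x : Word) (e L : ℕ) (f g : Fm)
    (hL : G.bd j x.length < L) (h : ∀ v : Word, v.length < L → f v = g v) :
    certs G j x e f = certs G j x e g :=
  Set.Subset.antisymm (certs_sub G j x e L f g hL h)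
    (certs_sub G j x e L g f hL fun v hv => (h v hv).symm)

open Classical in
/-- the rule -/
private noncomputable def famR (G : BSys) (S : Set ℕ) (m : ℕ) (X : Oracle) (b n : ℕ) (w : Word)
    (f : Fm) : Finset Word → Bool × Finset Word :=
  if w.length ≤ m then fun _ => (X w, ∅)
  else if h : ∃ r : Word, w = true :: tag b r ∧ r.length = n + 1 then
    fun Y => (decide (h.choose ∈ Y), {h.choose})
  else if h : ∃ p : ℕ × ℕ × ℕ × Word, w = false :: code p.1 p.2.1 p.2.2.1 p.2.2.2 ∧ 2 * p.1 ∈ S ∧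
      G.bd p.1 p.2.2.2.length ^ 2 ≤ p.2.2.1 then
    famT (certs G h.choose.1 h.choose.2.2.2 (ew w.length) f) (ew w.length)
  else fun _ => (false, ∅)

private theorem famR_congr (G : BSys) (S : Set ℕ) (m : ℕ) (X : Oracle) (b n : ℕ) (w : Word)
    (f g : Fm) (h : ∀ v : Word, v.length < w.length → f v = g v) :
    famR G S m X b n w f = famR G S m X b n w g := by
  unfold famR
  split_ifs with h1 h2 h3
  · rfl
  · rfl
  · have h4 := h3.choose_spec
    have h5 := (bd_le_of_valid (s := h3.choose.2.1) h4.2.2).2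
    rw [← h4.1] at h5
    rw [certs_congr G _ _ (ew w.length) w.length f g (by omega) h]
  · rfl

private theorem famR_yes (G : BSys) (S : Set ℕ) (m : ℕ) (X : Oracle) (b n : ℕ) (r : Word)
    (f : Fm) (hr : r.length = n + 1) (hm : m < (true :: tag b r).length) (Y : Finset Word) :
    famR G S m X b n (true :: tag b r) f Y = (decide (r ∈ Y), {r}) := by
  have h : ∃ r' : Word, true :: tag b r = true :: tag b r' ∧ r'.length = n + 1 := ⟨r, rfl, hr⟩
  have h2 : h.choose = r := by
    have := h.choose_spec.1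
    exact ((tag_inj (List.cons.inj this).2).2).symm
  unfold famR
  rw [if_neg (not_le.2 hm), dif_pos h]
  simp only [h2]

private theorem famR_no (G : BSys) (S : Set ℕ) (m : ℕ) (X : Oracle) (b n b' : ℕ) (r : Word)
    (f : Fm) (hr : ¬ (b' = b ∧ r.length = n + 1)) (hm : m < (true :: tag b' r).length)
    (Y : Finset Word) : famR G S m X b n (true :: tag b' r) f Y = (false, ∅) := by
  unfold famR
  rw [if_neg (not_le.2 hm), dif_neg, dif_neg]
  · rintro ⟨p, hp, -⟩
    simp at hp
  · rintro ⟨r', h1, h2⟩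
    obtain ⟨e1, e2⟩ := tag_inj (List.cons.inj h1).2
    exact hr ⟨e1, e2 ▸ h2⟩

private theorem famR_code (G : BSys) (S : Set ℕ) (m : ℕ) (X : Oracle) (b n j s k : ℕ) (x : Word)
    (f : Fm) (hj : 2 * j ∈ S) (hm : m < (false :: code j s k x).length)
    (hk : G.bd j x.length ^ 2 ≤ k) :
    famR G S m X b n (false :: code j s k x) f =
      famT (certs G j x (ew (false :: code j s k x).length) f)
        (ew (false :: code j s k x).length) := by
  have h : ∃ p : ℕ × ℕ × ℕ × Word, false :: code j s k x =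
      false :: code p.1 p.2.1 p.2.2.1 p.2.2.2 ∧ 2 * p.1 ∈ S ∧
      G.bd p.1 p.2.2.2.length ^ 2 ≤ p.2.2.1 := ⟨(j, s, k, x), rfl, hj, hk⟩
  have h2 := code_inj (List.cons.inj h.choose_spec.1).2
  unfold famR
  rw [if_neg (not_le.2 hm), dif_neg, dif_pos h, ← h2.1, ← h2.2.2.2]
  rintro ⟨r', h1, -⟩
  simp at h1

theorem exists_fam (G : BSys) (S : Set ℕ) {m : ℕ} (hm : 64 ≤ m) (X : Oracle) (b n : ℕ) :
    ∃ f : Fm, IsFam G S m X b n f := by
  obtain ⟨f, hf⟩ := exists_fix (famR G S m X b n) (famR_congr G S m X b n)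
  refine ⟨f, ?_⟩
  have htree : ∀ (j : ℕ) (x : Word) (e : ℕ), _ := fun j x e =>
    Classical.choose_spec (fam_tr (certs G j x e f) e) (certs_ok G j x e f)
  have hcard : ∀ w Y, (f w Y).2.card ≤ dd w.length ∧
      ∀ Y', Y ∩ (f w Y).2 = Y' ∩ (f w Y).2 → (f w Y').1 = (f w Y).1 := by
    intro w Y
    by_cases h1 : w.length ≤ m
    · have h : ∀ Y, f w Y = (X w, ∅) := fun Y => by
        rw [hf w]; unfold famR; rw [if_pos h1]
      rw [h]
      refine ⟨by simp, fun Y' _ => ?_⟩
      rw [h]
    · by_cases h2 : ∃ r : Word, w = true :: tag b r ∧ r.length = n + 1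
      · obtain ⟨r, rfl, hr⟩ := h2
        have h : ∀ Y, f (true :: tag b r) Y = (decide (r ∈ Y), {r}) := fun Y => by
          rw [hf]; exact famR_yes G S m X b n r f hr (not_le.1 h1) Y
        rw [h]
        refine ⟨by simpa using dd_pos _, fun Y' hY => ?_⟩
        rw [h]
        have h3 : r ∈ Y ↔ r ∈ Y' := by
          have h4 : r ∈ Y ∩ ({r} : Finset Word) ↔ r ∈ Y' ∩ ({r} : Finset Word) := by
            have hY' : Y ∩ ({r} : Finset Word) = Y' ∩ ({r} : Finset Word) := hY
            rw [hY']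
          simpa using h4
        simp only [h3]
      · by_cases h3 : ∃ p : ℕ × ℕ × ℕ × Word, w = false :: code p.1 p.2.1 p.2.2.1 p.2.2.2 ∧
            2 * p.1 ∈ S ∧ G.bd p.1 p.2.2.2.length ^ 2 ≤ p.2.2.1
        · obtain ⟨⟨j, s, k, x⟩, rfl, hj, hk⟩ := h3
          simp only at hj hk h1 ⊢
          have h : f (false :: code j s k x) = famT (certs G j x
              (ew (false :: code j s k x).length) f) (ew (false :: code j s k x).length) := by
            rw [hf]; exact famR_code G S m X b n j s k x f hj (not_le.1 h1) hk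
          obtain ⟨-, -, t3, t4⟩ := htree j x (ew (false :: code j s k x).length)
          rw [h]
          refine ⟨(t4 Y).trans ?_, fun Y' hY => t3 Y Y' hY⟩
          exact dd_rec (hm.trans (not_le.1 h1).le)
        · have h : ∀ Y, f w Y = (false, ∅) := fun Y => by
            rw [hf w]; unfold famR; rw [if_neg h1, dif_neg h2, dif_neg h3]
          rw [h]
          refine ⟨by simp, fun Y' _ => ?_⟩
          rw [h]
  constructor
  · intro w hw Y
    rw [hf w]; unfold famR; rw [if_pos hw]
  · intro r hr hmr Y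
    rw [hf]; exact famR_yes G S m X b n r f hr hmr Y
  · intro b' r hmr hr Y
    rw [hf]; exact famR_no G S m X b n b' r f hr hmr Y
  · intro j s k x hj hmx hk Y hY
    rw [hf, famR_code G S m X b n j s k x f hj hmx hk]
    exact (htree j x _).1 Y hY
  · intro j s k x hj hmx hk Y hY hB
    rw [hf, famR_code G S m X b n j s k x f hj hmx hk]
    exact (htree j x _).2.1 Y hY hB
  · exact fun w Y => (hcard w Y).1
  · exact fun w Y Y' h => (hcard w Y).2 Y' h

end OrC
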