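import Pool.Agent.Lib.MP_f6efc0_lc.CoreB.Defs

/-!
# Recursion on the length of words

PROOF: define `f w = Φ w (fun v => if v.length < w.length then f v else default)` by well founded
recursion on `w.length`.
-/

set_option autoImplicit false

namespace OrC

theorem exists_fix {β : Type} [Inhabited β] (Φ : Word → (Word → β) → β)
    (h : ∀ (w : Word) (f g : Word → β), (∀ v : Word, v.length < w.length → f v = g v) →
      Φ w f = Φ w g) :
    ∃ f : Word → β, ∀ w, f w = Φ w f := by
  refine ⟨(measure (List.length : Word → ℕ)).wf.fix fun w rec =>
    Φ w (fun v => if h : v.length < w.length then rec v h else default), fun w => ?_⟩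
  rw [WellFounded.fix_eq]
  refine h w _ _ fun v hv => ?_
  rw [dif_pos hv]

end OrC
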