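import Pool.Agent.Lib.MP_f6efc0_lc.CoreB.Seq

/-!
# The core theorem (b')

PROOF. `B w = (σ |w|).X w`; `B` agrees with `(σ t).X` on the words of length `≤ (σ t).m` (and
`(σ t).m ≥ t + 64`). Part 1: the machine `j` keeps its promise in `B`, so `Viol G (2 j)` is impossible
(`viol_congr`, `bad_rp`) and `2 j ∈ (σ (2 j + 1)).S`; `M = (σ (2 j)).m`; a code word of length `L > M`
lies in a level `(σ u).m < L ≤ (σ (u + 1)).m`, `u ≥ 2 j`, and `Ext G (u + 1)` gives `CodeOK` in
`(σ (u + 1)).X`, so in `B` (`codeOK_congr`). Part 2: the same for `a = 2 pair j s + 1`,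
`M = (σ a).m`, `b = pair (pair j s) M` (all levels of `b` are `> M`, `Nat.right_le_pair`), and the
requirement `(j, s, i, M)` is number `t` for some `t ≥ a` (last component of `Nat.pair` large).
-/

set_option autoImplicit false

namespace OrC

/-- The level of a length. -/
private theorem main_level (m : ℕ → ℕ) (hm : StrictMono m) {a L : ℕ} (h : m a < L) :
    ∃ u, a ≤ u ∧ m u < L ∧ L ≤ m (u + 1) := by
  classical
  have hex : ∃ t, L ≤ m t := ⟨L, hm.le_apply⟩
  have h1 : L ≤ m (Nat.find hex) := Nat.find_spec hex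
  have h2 : a < Nat.find hex := by
    by_contra hc
    have h3 := hm.monotone (not_lt.1 hc)
    omega
  obtain ⟨u, hu⟩ : ∃ u, Nat.find hex = u + 1 := ⟨Nat.find hex - 1, by omega⟩
  have h4 : ¬ L ≤ m u := Nat.find_min hex (by omega)
  rw [hu] at h1 h2
  exact ⟨u, by omega, by omega, h1⟩

theorem coreB (G : BSys) : ∃ B : Oracle,
    (∀ j, (∀ x, G.P j B x = 0 ∨ 1 / 2 < G.P j B x) →
      ∃ M, ∀ s k x, M ≤ s → G.bd j x.length ^ 2 ≤ k → CodeOK G B j s k x) ∧
    ∀ j s : ℕ, (∀ x, 1 / ((s : ℝ) + 1) ≤ |G.P j B x - 1 / 2|) →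
      ∃ b, (∀ n, dens B b n ≤ 1 / 3 ∨ 2 / 3 ≤ dens B b n) ∧
        ∀ i, ∃ x : Word, ¬ (2 / 3 ≤ dens B b x.length ↔ 1 / 2 < G.P j B (G.F i B x)) := by
  obtain ⟨σ, hσ⟩ := exists_seq G
  have hm : StrictMono fun t => (σ t).m := strictMono_nat_of_lt_succ fun t => (hσ t).1
  have hS : Monotone fun t => (σ t).S := monotone_nat_of_le_succ fun t => (hσ t).2.1
  have hA : ∀ u u' : ℕ, u ≤ u' → Agree (σ u).m (σ u).X (σ u').X := by
    intro u u' h
    induction u', h using Nat.le_induction with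
    | base => exact fun _ _ => rfl
    | succ n hn ih =>
      exact ih.trans ((hσ n).2.2.1.agree.mono (hm.monotone hn))
  let B : Oracle := fun w => (σ w.length).X w
  have hB : ∀ t, Agree (σ t).m (σ t).X B := by
    intro t w hw
    rcases le_total t w.length with h | h
    · exact hA t w.length h w hw
    · exact (hA w.length t h w (hm.le_apply (x := w.length))).symm
  refine ⟨B, ?_, ?_⟩
  · intro j hj
    have hin : 2 * j ∈ (σ (2 * j + 1)).S := by
      rcases (hσ (2 * j)).2.2.2.1 with h | h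
      · exact h
      · obtain ⟨x, _, hx⟩ := (viol_congr (hB (2 * j + 1))).2 h
        rw [mach_rp, bad_rp] at hx
        rcases hj x with h0 | h0
        · exact absurd h0 hx.1.ne'
        · exact absurd h0 (not_lt.2 hx.2)
    refine ⟨(σ (2 * j)).m, fun s k x hs hk => ?_⟩
    have hL : (σ (2 * j)).m < (false :: code j s k x).length := by
      rw [length_code]
      omega
    obtain ⟨u, hu, h1, h2⟩ := main_level (fun t => (σ t).m) hm hL
    have h3 := (hσ u).2.2.1.code j s k x (by omega) (hS (by omega : 2 * j + 1 ≤ u + 1) hin) h1 h2 hk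
    exact (codeOK_congr (hB (u + 1)) h2 hk).2 h3
  · intro j s hj
    have hin : 2 * Nat.pair j s + 1 ∈ (σ (2 * Nat.pair j s + 1 + 1)).S := by
      rcases (hσ (2 * Nat.pair j s + 1)).2.2.2.1 with h | h
      · exact h
      · obtain ⟨x, _, hx⟩ := (viol_congr (hB (2 * Nat.pair j s + 1 + 1))).2 h
        rw [mach_bpp, bad_bpp] at hx
        exact absurd hx (not_lt.2 (hj x))
    obtain ⟨M, hM⟩ : ∃ M, M = (σ (2 * Nat.pair j s + 1)).m := ⟨_, rfl⟩
    refine ⟨Nat.pair (Nat.pair j s) M, fun n => ?_, fun i => ?_⟩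
    · have hL : (σ (2 * Nat.pair j s + 1)).m < Nat.pair (Nat.pair j s) M + n + 3 := by
        have := Nat.right_le_pair (Nat.pair j s) M
        omega
      obtain ⟨u, hu, h1, h2⟩ := main_level (fun t => (σ t).m) hm hL
      have h3 := (hσ u).2.2.1.dens j s M n (by omega)
        (hS (by omega : 2 * Nat.pair j s + 1 + 1 ≤ u + 1) hin) h1 h2
      rw [dens_congr (hB (u + 1)) h2]
      exact h3
    · obtain ⟨t, ht⟩ : ∃ t, t = Nat.pair (Nat.pair (Nat.pair j s) (Nat.pair i M))
        (2 * Nat.pair j s + 1) := ⟨_, rfl⟩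
      have hta : 2 * Nat.pair j s + 1 ≤ t := by
        rw [ht]
        exact Nat.right_le_pair _ _
      have hr : req t = (j, s, i, M) := by
        rw [ht]
        unfold req
        simp only [Nat.unpair_pair]
      have h4 := (hσ t).2.2.2.2
      rw [hr] at h4
      have h5 := h4 (hS (by omega : 2 * Nat.pair j s + 1 + 1 ≤ t + 1) hin)
      obtain ⟨x, _, _, _, hx⟩ := met_congr h5 (hB (t + 1)) le_rfl
      exact ⟨x, hx⟩

end OrC
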