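import Pool.Agent.Lib.MP_f6efc0_lc.CoreB.Fam
import Pool.Agent.Lib.MP_f6efc0_lc.CoreB.Count

/-!
# Runs in the family

PROOF: if `Y'` agrees with `Y` on `depRun`, it agrees with `Y` on the dependency set of every
question of the run, so all answers are equal (`IsFam.loc`) and `G.loc` gives the same run.
`pos_iff`: `P > 0` gives an accepting run in `world f Y`, its certificate `(D, Y ∩ D)` is matched by
`Y` (`D.card ≤ ew` by `depRun_card`); conversely a matched certificate `(D, Y₁ ∩ D)` gives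
`Y ∩ D = Y₁ ∩ D`, so the accepting run of `Y₁` is a run of `Y` (`run_loc`).
-/

set_option autoImplicit false

namespace OrC

variable {G : BSys} {S : Set ℕ} {m : ℕ} {X : Oracle} {b n : ℕ} {f : Fm}

private theorem run_world (hf : IsFam G S m X b n f) {L : List Word} {Y Y' : Finset Word}
    (h : Y ∩ depOf f L Y = Y' ∩ depOf f L Y) : ∀ q ∈ L, world f Y q = world f Y' q := by
  intro q hq
  have hsub : (f q Y).2 ⊆ depOf f L Y := by
    intro r hr
    exact Finset.mem_biUnion.2 ⟨q, List.mem_toFinset.2 hq, hr⟩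
  have h1 : Y ∩ (f q Y).2 = Y' ∩ (f q Y).2 := by
    ext r
    have h2 := Finset.ext_iff.1 h r
    simp only [Finset.mem_inter] at h2 ⊢
    constructor
    · rintro ⟨h3, h4⟩
      exact ⟨(h2.1 ⟨h3, hsub h4⟩).1, h4⟩
    · rintro ⟨h3, h4⟩
      exact ⟨(h2.2 ⟨h3, hsub h4⟩).1, h4⟩
  exact (hf.loc q Y Y' h1).symm

private theorem run_card (hf : IsFam G S m X b n f) (L : List Word) (Y : Finset Word) {q : ℕ}
    (h1 : L.length ≤ q) (h2 : ∀ w ∈ L, w.length ≤ q) : (depOf f L Y).card ≤ q * dd q := by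
  refine Finset.card_biUnion_le.trans ?_
  refine (Finset.sum_le_card_nsmul _ _ (dd q) fun w hw => ?_).trans ?_
  · exact (hf.card w Y).trans (dd_mono (h2 w (List.mem_toFinset.1 hw)))
  · rw [smul_eq_mul]
    exact Nat.mul_le_mul_right _ ((List.toFinset_card_le L).trans h1)

theorem run_loc (hf : IsFam G S m X b n f) (j : ℕ) (x r : Word) {Y Y' : Finset Word}
    (h : Y ∩ depRun G f j x r Y = Y' ∩ depRun G f j x r Y) :
    G.acc j (world f Y') x r = G.acc j (world f Y) x r :=
  (G.loc j _ _ x r (run_world hf h)).1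

theorem F_loc (hf : IsFam G S m X b n f) (i : ℕ) (x : Word) {Y Y' : Finset Word}
    (h : Y ∩ depOf f (G.qF i (world f Y) x) Y = Y' ∩ depOf f (G.qF i (world f Y) x) Y) :
    G.F i (world f Y') x = G.F i (world f Y) x :=
  G.locF i _ _ x (run_world hf h)

theorem depRun_card (hf : IsFam G S m X b n f) (j : ℕ) (x r : Word) (Y : Finset Word)
    (hr : r.length = G.rl j x.length) {q : ℕ} (hq : G.bd j x.length ≤ q) :
    (depRun G f j x r Y).card ≤ q * dd q :=
  run_card hf _ Y ((G.qnum j _ x r hr).trans hq) fun w hw => (G.qlen j _ x r hr w hw).trans hq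

theorem depF_card (hf : IsFam G S m X b n f) (i : ℕ) (x : Word) (Y : Finset Word) {q : ℕ}
    (hq : G.bF i x.length ≤ q) : (depOf f (G.qF i (world f Y) x) Y).card ≤ q * dd q :=
  run_card hf _ Y ((G.qFnum i _ x).trans hq) fun w hw => (G.qFlen i _ x w hw).trans hq

theorem P_diff (hf : IsFam G S m X b n f) (j : ℕ) (x : Word) (Y Y' : Finset Word) :
    |G.P j (world f Y) x - G.P j (world f Y') x| ≤
      Pr (G.rl j x.length) fun r => ¬ Disjoint (depRun G f j x r Y) (symmDiff Y Y') := by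
  refine pr_diff _ _ _ _ fun r _ hr => ?_
  rw [not_not] at hr
  have h1 : Y ∩ depRun G f j x r Y = Y' ∩ depRun G f j x r Y := by
    ext w
    simp only [Finset.mem_inter]
    have h2 : w ∈ depRun G f j x r Y → (w ∈ Y ↔ w ∈ Y') := by
      intro hw
      have h3 : w ∉ symmDiff Y Y' := Finset.disjoint_left.1 hr hw
      rw [Finset.mem_symmDiff] at h3
      tauto
    constructor
    · rintro ⟨h3, h4⟩
      exact ⟨(h2 h4).1 h3, h4⟩
    · rintro ⟨h3, h4⟩
      exact ⟨(h2 h4).2 h3, h4⟩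
  rw [run_loc hf j x r h1]

theorem pos_iff (hf : IsFam G S m X b n f) {j s k : ℕ} {x : Word}
    (hk : G.bd j x.length ^ 2 ≤ k) (Y : Finset Word) :
    0 < G.P j (world f Y) x ↔
      ∃ c ∈ certs G j x (ew (false :: code j s k x).length) f, Matches c Y := by
  constructor
  · intro h
    obtain ⟨r, hr, hacc⟩ := exists_of_pr_pos h
    refine ⟨(depRun G f j x r Y, Y ∩ depRun G f j x r Y), ⟨?_, Y, r, hr, hacc, rfl, rfl⟩, rfl⟩
    exact depRun_card hf j x r Y hr (bd_le_of_valid hk).1
  · rintro ⟨c, ⟨-, Y₁, r, hr, hacc, h1, h2⟩, h3⟩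
    have h4 : Y₁ ∩ depRun G f j x r Y₁ = Y ∩ depRun G f j x r Y₁ := by
      rw [← h1, ← h2]
      exact h3.symm
    refine Pr_pos hr ?_
    show G.acc j (world f Y) x r = true
    rw [run_loc hf j x r h4, hacc]

end OrC
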