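import Pool.Agent.Lib.MP_f6efc0_lc.CoreB.Basic

/-!
# Kill or keep, and one more level

PROOF of `stageK`: if some `Ext G a S m X l X'` has `Viol G a l X'`, take it (`S' = S`, `Unk.ext`;
`Ext G (a + 1) S` follows from `Ext G a S` by `Ext.mono` since `a ∉ S`); otherwise `S' = S ∪ {a}`,
`m, X` unchanged; for `b ∈ S` the statement `Unk` about `S'` is the one about `S`, because only the
elements below `b` matter (`Ext.mono`).
PROOF of `stageE`: `X'` = `X` except at the words of length `m + 1`: the code word of `(j, s, k, x)`
gets the bit `[G.P j X x > 0]` (`P_congr`: the questions of valid ones have length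
`≤ m`), all other words of length `m + 1` get `false` (density `0`).
-/

set_option autoImplicit false

namespace OrC

variable {G : BSys}

theorem stageK {a : ℕ} {S : Set ℕ} {m : ℕ} {X : Oracle} (hS : ∀ b ∈ S, b < a)
    (hU : Unk G S m X) :
    ∃ (l : ℕ) (X' : Oracle) (S' : Set ℕ), Ext G (a + 1) S' m X l X' ∧ Unk G S' l X' ∧
      S ⊆ S' ∧ (∀ b ∈ S', b < a + 1) ∧ (a ∈ S' ∨ Viol G a l X') := by
  by_cases h : ∃ l X', Ext G a S m X l X' ∧ Viol G a l X'
  · obtain ⟨l, X', hE, hV⟩ := h
    refine ⟨l, X', S, hE.mono fun b hb _ => ⟨hb, hS b hb⟩,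
      hU.ext (fun b hb => (hS b hb).le) hE, fun _ hb => hb,
      fun b hb => (hS b hb).trans (Nat.lt_succ_self a), Or.inr hV⟩
  · refine ⟨m, X, insert a S, Ext.refl _ _ _ _, ?_, Set.subset_insert _ _, ?_,
      Or.inl (Set.mem_insert _ _)⟩
    · intro b hb l X' hE hV
      rcases Set.mem_insert_iff.mp hb with rfl | hbS
      · exact h ⟨l, X', hE.mono fun c hc hcb => ⟨Set.mem_insert_of_mem _ hc, hcb⟩, hV⟩
      · exact hU b hbS l X' (hE.mono fun c hc hcb => ⟨Set.mem_insert_of_mem _ hc, hcb⟩) hV
    · intro b hb
      rcases Set.mem_insert_iff.mp hb with rfl | hbS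
      · exact Nat.lt_succ_self _
      · exact (hS b hbS).trans (Nat.lt_succ_self a)

open Classical in
/-- the world with one more level: correct code bits of all machines, empty `Y`-sets. -/
private noncomputable def stageKNext (G : BSys) (m : ℕ) (X : Oracle) : Oracle := fun w =>
  if w.length ≤ m then X w
  else decide (∃ j s k x, w = false :: code j s k x ∧ 0 < G.P j X x)

private theorem stageKNext_of_le {m : ℕ} {X : Oracle} {w : Word} (h : w.length ≤ m) :
    stageKNext G m X w = X w := by
  unfold stageKNext
  rw [if_pos h]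

private theorem stageKNext_code {m : ℕ} {X : Oracle} {j s k : ℕ} {x : Word}
    (h : m < (false :: code j s k x).length) :
    stageKNext G m X (false :: code j s k x) = true ↔ 0 < G.P j X x := by
  classical
  unfold stageKNext
  rw [if_neg (not_le.mpr h), decide_eq_true_iff]
  constructor
  · rintro ⟨j', s', k', x', he, hp⟩
    obtain ⟨rfl, -, -, rfl⟩ := code_inj (List.cons.inj he).2
    exact hp
  · intro hp
    exact ⟨j, s, k, x, rfl, hp⟩

private theorem stageKNext_y {m : ℕ} {X : Oracle} {b : ℕ} {r : Word}
    (h : m < (true :: tag b r).length) :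
    stageKNext G m X (true :: tag b r) = false := by
  classical
  unfold stageKNext
  rw [if_neg (not_le.mpr h), decide_eq_false_iff_not]
  rintro ⟨j', s', k', x', he, -⟩
  exact Bool.noConfusion (List.cons.inj he).1

theorem stageE {a : ℕ} {S : Set ℕ} {m : ℕ} {X : Oracle} (hS : ∀ b ∈ S, b < a)
    (hU : Unk G S m X) :
    ∃ X' : Oracle, Ext G a S m X (m + 1) X' ∧ Unk G S (m + 1) X' := by
  have hA : Agree m X (stageKNext G m X) := fun w hw => stageKNext_of_le hw
  have hE : Ext G a S m X (m + 1) (stageKNext G m X) := by
    refine ⟨Nat.le_succ m, hA, ?_, ?_⟩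
    · intro j s k x _ _ hm hm1 hk
      have hb := (bd_le_of_valid (G := G) (s := s) hk).2
      have hle : G.bd j x.length ≤ m := by omega
      show stageKNext G m X (false :: code j s k x) = true ↔ 0 < G.P j (stageKNext G m X) x
      rw [P_congr hA hle]
      exact stageKNext_code hm
    · intro j s M n _ _ hm _
      left
      have h0 : dens (stageKNext G m X) (Nat.pair (Nat.pair j s) M) n = 0 := by
        unfold dens Pr
        have hemp : {r : Word | r.length = n + 1 ∧
            stageKNext G m X (true :: tag (Nat.pair (Nat.pair j s) M) r) = true} = ∅ := by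
          rw [Set.eq_empty_iff_forall_notMem]
          rintro r ⟨hr, hx⟩
          rw [stageKNext_y] at hx
          · exact Bool.noConfusion hx
          · rw [length_y, hr]
            omega
        rw [hemp, Set.ncard_empty, Nat.cast_zero, zero_div]
      rw [h0]
      norm_num
  exact ⟨_, hE, hU.ext (fun b hb => (hS b hb).le) hE⟩

end OrC
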