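import Pool.Agent.Lib.MP_f6efc0_lc.CoreB.StageD
import Pool.Agent.Lib.MP_f6efc0_lc.CoreB.StageK

/-!
# The sequence of states and the final oracle

PROOF of `step`: `stageK` for `a = t`, then `stageD` for the requirement number `t` if its BPP-index is
kept, then `stageE`; compose with `Ext.trans`. (`Viol` passes on by `viol_congr`, `Viol.mono`; the
inequality of `stageD` passes on by `F_congr`, `P_congr`, `dens_congr`.)
PROOF of `exists_seq`: iterate `step` from `m = 64`, `X = false`, `S = ∅`.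
-/

set_option autoImplicit false

namespace OrC

/-- A state before the stage `t`. -/
structure St (G : BSys) (t : ℕ) where
  m : ℕ
  X : Oracle
  S : Set ℕ
  hm : 64 ≤ m
  lt : ∀ b ∈ S, b < t
  unk : Unk G S m X

/-- The requirement `(j, s, i, M)` is met inside the words of length `≤ l` of `X`. -/
def Met (G : BSys) (j s i M l : ℕ) (X : Oracle) : Prop :=
  ∃ x : Word, G.bF i x.length ≤ l ∧ G.bd j (G.F i X x).length ≤ l ∧
    Nat.pair (Nat.pair j s) M + x.length + 3 ≤ l ∧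
    ¬ (2 / 3 ≤ dens X (Nat.pair (Nat.pair j s) M) x.length ↔ 1 / 2 < G.P j X (G.F i X x))

theorem met_congr {G : BSys} {j s i M l : ℕ} {X X' : Oracle} (h : Met G j s i M l X)
    (hA : Agree l X X') {l' : ℕ} (hl : l ≤ l') : Met G j s i M l' X' := by
  obtain ⟨x, h1, h2, h3, h4⟩ := h
  have hF := F_congr hA h1
  refine ⟨x, h1.trans hl, ?_, h3.trans hl, ?_⟩
  · rw [hF]
    exact h2.trans hl
  · rw [hF, P_congr hA h2, dens_congr hA h3]
    exact h4

theorem step {G : BSys} {t : ℕ} (σ : St G t) (j s i M : ℕ) :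
    ∃ τ : St G (t + 1), σ.m < τ.m ∧ σ.S ⊆ τ.S ∧ Ext G (t + 1) τ.S σ.m σ.X τ.m τ.X ∧
      (t ∈ τ.S ∨ Viol G t τ.m τ.X) ∧
      (2 * Nat.pair j s + 1 ∈ τ.S → Met G j s i M τ.m τ.X) := by
  obtain ⟨l, X', S', hE1, hU1, hSS, hlt, hor⟩ := stageK σ.lt σ.unk
  have hl : 64 ≤ l := σ.hm.trans hE1.le
  by_cases hj : 2 * Nat.pair j s + 1 ∈ S'
  · obtain ⟨l2, X2, hE2, hU2, hmet⟩ := stageD hlt hl hU1 j s i M hj
    obtain ⟨X3, hE3, hU3⟩ := stageE hlt hU2
    have hE23 := hE2.trans hE3 le_rfl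
    have h64 : 64 ≤ l2 + 1 := (hl.trans hE2.le).trans (Nat.le_succ _)
    refine ⟨⟨l2 + 1, X3, S', h64, hlt, hU3⟩, ?_, hSS, hE1.trans hE23 le_rfl, ?_, ?_⟩
    · exact Nat.lt_succ_of_le (hE1.le.trans hE2.le)
    · refine hor.imp id fun hv => ?_
      exact ((viol_congr hE23.agree).2 hv).mono hE23.le
    · intro _
      exact met_congr hmet hE3.agree hE3.le
  · obtain ⟨X3, hE3, hU3⟩ := stageE hlt hU1
    have h64 : 64 ≤ l + 1 := hl.trans (Nat.le_succ _)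
    refine ⟨⟨l + 1, X3, S', h64, hlt, hU3⟩, ?_, hSS, hE1.trans hE3 le_rfl, ?_, ?_⟩
    · exact Nat.lt_succ_of_le hE1.le
    · refine hor.imp id fun hv => ?_
      exact ((viol_congr hE3.agree).2 hv).mono hE3.le
    · intro h
      exact absurd h hj

/-- the requirement number `t`: `t = pair (pair (pair j s) (pair i M)) u`. -/
def req (t : ℕ) : ℕ × ℕ × ℕ × ℕ :=
  (t.unpair.1.unpair.1.unpair.1, t.unpair.1.unpair.1.unpair.2,
    t.unpair.1.unpair.2.unpair.1, t.unpair.1.unpair.2.unpair.2)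

theorem exists_seq (G : BSys) : ∃ σ : ∀ t, St G t, ∀ t, (σ t).m < (σ (t + 1)).m ∧
    (σ t).S ⊆ (σ (t + 1)).S ∧
    Ext G (t + 1) (σ (t + 1)).S (σ t).m (σ t).X (σ (t + 1)).m (σ (t + 1)).X ∧
    (t ∈ (σ (t + 1)).S ∨ Viol G t (σ (t + 1)).m (σ (t + 1)).X) ∧
    (2 * Nat.pair (req t).1 (req t).2.1 + 1 ∈ (σ (t + 1)).S →
      Met G (req t).1 (req t).2.1 (req t).2.2.1 (req t).2.2.2 (σ (t + 1)).m (σ (t + 1)).X) := by
  have key : ∀ (t : ℕ) (σ : St G t), ∃ τ : St G (t + 1), σ.m < τ.m ∧ σ.S ⊆ τ.S ∧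
      Ext G (t + 1) τ.S σ.m σ.X τ.m τ.X ∧ (t ∈ τ.S ∨ Viol G t τ.m τ.X) ∧
      (2 * Nat.pair (req t).1 (req t).2.1 + 1 ∈ τ.S →
        Met G (req t).1 (req t).2.1 (req t).2.2.1 (req t).2.2.2 τ.m τ.X) :=
    fun t σ => step σ (req t).1 (req t).2.1 (req t).2.2.1 (req t).2.2.2
  choose f hf using key
  have hU0 : Unk G ∅ 64 (fun _ => false) := fun b hb => absurd hb (Set.notMem_empty b)
  let σ₀ : St G 0 := ⟨64, fun _ => false, ∅, le_rfl, fun b hb => absurd hb (Set.notMem_empty b), hU0⟩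
  let σ : ∀ t, St G t := fun t => Nat.rec σ₀ (fun t s => f t s) t
  exact ⟨σ, fun t => hf t (σ t)⟩

end OrC
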