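import Pool.Agent.Lib.MP_f6efc0_lc.CoreB.StageD0

/-!
# The diagonalisation stage

PROOF. `b = pair (pair j s) M`, `a₀ = 2 pair j s + 1`. `poly_bound` gives `c`, `dd_small` gives a large
`n`; `l = (n + 2) ^ c`, `x = 1^n`, `f` from `exists_fam`, `U` = words of length `n + 1`,
`z = G.F i (world f ∅) x`, `g Y = G.P j (world f Y) z`, `γ = 1 / (s + 1)`.
`all_ext`: for EVERY `Y`: `Ext G a₀ S m X l (world f Y)` (`ext_world`, `truth` with the first case of
`Dom`), so by `Unk` and `bad_bpp` `γ ≤ |g Y - 1 / 2|`.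
If `g ∅ ≥ 1 / 2 + γ`: take `Y = ∅`. Otherwise `chain` with `bad Y` = `depOf` of the reduction, together
with the `y ∈ U` for which the run of `j` on `z` depends on `y` with probability `≥ γ` (at most
`(s + 1) l dd l` many, `sum_pr_le` with singletons; step by `P_diff`, `F_loc`). The final `Y` has at
least `2^(n+1) - (s + 2) l dd l` elements, `K = 3 (s + 3)` in `dd_small`. In both cases `Dom` holds for
all indices with margin `l dd l`, so `Ext G t S m X l (world f Y)` by `truth` and `ext_world`; `Unk` by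
`Unk.ext`.
-/

set_option autoImplicit false

namespace OrC

variable {G : BSys}

private theorem ext_final {t : ℕ} {S : Set ℕ} {m : ℕ} {X : Oracle} (hm : 64 ≤ m)
    (hU : Unk G S m X) {j₀ s₀ M n l : ℕ} {f : Fm}
    (hf : IsFam G S m X (Nat.pair (Nat.pair j₀ s₀) M) n f)
    (hn : m < Nat.pair (Nat.pair j₀ s₀) M + n + 3) (hl : m ≤ l) (Y : Finset Word)
    (hY : 3 * (yc n Y + l * dd l) ≤ 2 ^ (n + 1) ∨
      2 * 2 ^ (n + 1) + 3 * (l * dd l) ≤ 3 * yc n Y) :
    Ext G t S m X l (world f Y) := by
  refine ext_world hf hl hn Y ?_ ?_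
  · intro j s k x _ hjS h1 h2 hk
    refine truth hU hf hm hn hl hjS h1 h2 hk Y ?_
    have hle : (false :: code j s k x).length * dd l ≤ l * dd l := Nat.mul_le_mul_right _ h2
    rcases hY with h | h
    · right
      left
      omega
    · right
      right
      omega
  · intro _
    rcases hY with h | h
    · left
      omega
    · right
      omega

private theorem card_words (n : ℕ) :
    (List.finite_length_eq Bool (n + 1)).toFinset.card = 2 ^ (n + 1) := by
  rw [← ncard_words (n + 1)]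
  exact (Set.ncard_eq_toFinset_card _ (List.finite_length_eq Bool (n + 1))).symm

/-- Few words are met by the runs with a large probability. -/
private theorem heavy_card (q K : ℕ) (D : Word → Finset Word) (U : Finset Word) (s : ℕ)
    (hD : ∀ r : Word, r.length = q → (D r).card ≤ K) :
    (U.filter fun y => 1 / ((s : ℝ) + 1) ≤ Pr q fun r => ¬ Disjoint (D r) {y}).card ≤
      (s + 1) * K := by
  classical
  set H := U.filter fun y => 1 / ((s : ℝ) + 1) ≤ Pr q fun r => ¬ Disjoint (D r) {y} with hH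
  have h1 := sum_pr_le q D K hD (H.image fun y => ({y} : Finset Word)) (by
    intro B hB B' hB' hne
    obtain ⟨y, _, rfl⟩ := Finset.mem_image.1 hB
    obtain ⟨y', _, rfl⟩ := Finset.mem_image.1 hB'
    rw [Finset.disjoint_singleton]
    rintro rfl
    exact hne rfl)
  rw [Finset.sum_image (fun a _ b _ h => Finset.singleton_injective h)] at h1
  have h2 : (H.card : ℝ) * (1 / ((s : ℝ) + 1)) ≤
      ∑ y ∈ H, Pr q fun r => ¬ Disjoint (D r) {y} := by
    rw [← nsmul_eq_mul]
    exact Finset.card_nsmul_le_sum _ _ _ fun y hy => (Finset.mem_filter.1 hy).2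
  have h3 : (H.card : ℝ) * (1 / ((s : ℝ) + 1)) ≤ K := h2.trans h1
  have hs : (0 : ℝ) < (s : ℝ) + 1 := by positivity
  rw [mul_one_div, div_le_iff₀ hs] at h3
  have h4 : (H.card : ℝ) ≤ (((s + 1) * K : ℕ) : ℝ) := by
    push_cast
    linarith
  exact_mod_cast h4

theorem stageD {t : ℕ} {S : Set ℕ} {m : ℕ} {X : Oracle} (hS : ∀ b ∈ S, b < t) (hm : 64 ≤ m)
    (hU : Unk G S m X) (j s i M : ℕ) (hj : 2 * Nat.pair j s + 1 ∈ S) :
    ∃ (l : ℕ) (X' : Oracle), Ext G t S m X l X' ∧ Unk G S l X' ∧ ∃ x : Word,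
      G.bF i x.length ≤ l ∧ G.bd j (G.F i X' x).length ≤ l ∧
      Nat.pair (Nat.pair j s) M + x.length + 3 ≤ l ∧
      ¬ (2 / 3 ≤ dens X' (Nat.pair (Nat.pair j s) M) x.length ↔
        1 / 2 < G.P j X' (G.F i X' x)) := by
  classical
  obtain ⟨c, n₀, hpoly⟩ := poly_bound G i j (Nat.pair (Nat.pair j s) M) m
  obtain ⟨n₁, hsmall⟩ := dd_small c (3 * (s + 3))
  obtain ⟨n, hn0, hn1⟩ : ∃ n, n₀ ≤ n ∧ n₁ ≤ n := ⟨max n₀ n₁, le_max_left _ _, le_max_right _ _⟩
  obtain ⟨hmn, hbF, hbd, hbl, hml⟩ := hpoly n hn0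
  have hsm := hsmall n hn1
  obtain ⟨l, hl⟩ : ∃ l, l = (n + 2) ^ c := ⟨_, rfl⟩
  rw [← hl] at hbF hbd hbl hml hsm
  clear hpoly hsmall
  obtain ⟨f, hf⟩ := exists_fam G S hm X (Nat.pair (Nat.pair j s) M) n
  have hn : m < Nat.pair (Nat.pair j s) M + n + 3 := by omega
  obtain ⟨x, hx⟩ : ∃ x : Word, x.length = n := ⟨List.replicate n true, List.length_replicate⟩
  obtain ⟨z, hz⟩ : ∃ z, z = G.F i (world f ∅) x := ⟨_, rfl⟩
  have hFl : ∀ A, (G.F i A x).length ≤ G.bF i n := fun A => by
    have := G.Flen i A x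
    rwa [hx] at this
  have hzl : G.bd j z.length ≤ l := hbd _ (by rw [hz]; exact hFl _)
  have hbFx : G.bF i x.length ≤ l := by rw [hx]; exact hbF
  have hgap : ∀ Y : Finset Word, 1 / ((s : ℝ) + 1) ≤ |G.P j (world f Y) z - 1 / 2| := fun Y =>
    all_ext hU hf hm hn hml hj Y hzl
  have hγ : (0 : ℝ) < 1 / ((s : ℝ) + 1) := by positivity
  have hSt : ∀ b ∈ S, b ≤ t := fun b hb => (hS b hb).le
  -- the conclusion for a good set
  have hfin : ∀ Y : Finset Word, (3 * (yc n Y + l * dd l) ≤ 2 ^ (n + 1) ∨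
      2 * 2 ^ (n + 1) + 3 * (l * dd l) ≤ 3 * yc n Y) →
      ¬ (2 / 3 ≤ dens (world f Y) (Nat.pair (Nat.pair j s) M) n ↔
        1 / 2 < G.P j (world f Y) (G.F i (world f Y) x)) →
      ∃ (l : ℕ) (X' : Oracle), Ext G t S m X l X' ∧ Unk G S l X' ∧ ∃ x : Word,
      G.bF i x.length ≤ l ∧ G.bd j (G.F i X' x).length ≤ l ∧
      Nat.pair (Nat.pair j s) M + x.length + 3 ≤ l ∧
      ¬ (2 / 3 ≤ dens X' (Nat.pair (Nat.pair j s) M) x.length ↔
        1 / 2 < G.P j X' (G.F i X' x)) := by
    intro Y hY hneg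
    have hE : Ext G t S m X l (world f Y) := ext_final hm hU hf hn hml Y hY
    refine ⟨l, world f Y, hE, hU.ext hSt hE, x, hbFx, hbd _ (hFl _), ?_, ?_⟩
    · rw [hx]
      exact hbl
    · rw [hx]
      exact hneg
  rcases le_abs.1 (hgap ∅) with h | h
  · -- the empty set
    refine hfin ∅ (Or.inl ?_) ?_
    · have h0 : yc n (∅ : Finset Word) = 0 := by simp [yc]
      rw [h0, zero_add]
      refine le_trans ?_ hsm
      exact Nat.mul_le_mul_right _ (by omega)
    · intro hiff
      rw [← hz] at hiff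
      have h1 : 1 / 2 < G.P j (world f ∅) z := by linarith
      have h2 := hiff.2 h1
      rw [dens_world hf hn] at h2
      simp [yc] at h2
      linarith
  · -- the chain
    obtain ⟨Y, hYU, hYh, hYg, hYbad⟩ := chain (List.finite_length_eq Bool (n + 1)).toFinset
      (fun Y => G.P j (world f Y) z) (1 / ((s : ℝ) + 1)) (fun Y => G.F i (world f Y) x)
      (fun Y => depOf f (G.qF i (world f Y) x) Y ∪
        (List.finite_length_eq Bool (n + 1)).toFinset.filter fun y =>
          1 / ((s : ℝ) + 1) ≤ Pr (G.rl j z.length) fun r => ¬ Disjoint (depRun G f j z r Y) {y})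
      (fun Y _ => hgap Y)
      (by
        intro Y _ y hyU hyY hyb
        rw [Finset.mem_union, not_or] at hyb
        obtain ⟨hy1, hy2⟩ := hyb
        constructor
        · refine F_loc hf i x ?_
          ext w
          simp only [Finset.mem_inter, Finset.mem_insert]
          constructor
          · rintro ⟨h1, h2⟩
            exact ⟨Or.inr h1, h2⟩
          · rintro ⟨h1 | h1, h2⟩
            · exact absurd (h1 ▸ h2) hy1
            · exact ⟨h1, h2⟩
        · have h1 := P_diff hf j z Y (insert y Y)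
          have h2 : symmDiff Y (insert y Y) = {y} := by
            ext w
            simp only [Finset.mem_symmDiff, Finset.mem_insert, Finset.mem_singleton]
            constructor
            · rintro (⟨h1, h2⟩ | ⟨h1, h2⟩)
              · exact absurd (Or.inr h1) h2
              · exact h1.resolve_right h2
            · rintro rfl
              exact Or.inr ⟨Or.inl rfl, hyY⟩
          rw [h2] at h1
          have h3 : (Pr (G.rl j z.length) fun r => ¬ Disjoint (depRun G f j z r Y) {y}) <
              1 / ((s : ℝ) + 1) := by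
            by_contra hcon
            exact hy2 (Finset.mem_filter.2 ⟨hyU, not_lt.1 hcon⟩)
          rw [abs_sub_comm]
          linarith)
      (by linarith)
    have hYh' : G.F i (world f Y) x = z := by rw [hz]; exact hYh
    have hcard1 : ((List.finite_length_eq Bool (n + 1)).toFinset \ Y).card ≤
        l * dd l + (s + 1) * (l * dd l) := by
      refine (Finset.card_le_card hYbad).trans ((Finset.card_union_le _ _).trans ?_)
      exact add_le_add (depF_card hf i x Y hbFx) (heavy_card _ _ _ _ _ fun r hr =>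
        depRun_card hf j z r Y hr hzl)
    have hyc : yc n Y = Y.card := by
      unfold yc
      congr 1
      refine Finset.filter_true_of_mem fun r hr => ?_
      have := hYU hr
      simpa using this
    have hcard2 : 2 ^ (n + 1) ≤ yc n Y + (l * dd l + (s + 1) * (l * dd l)) := by
      rw [hyc, ← card_words n]
      have h1 := Finset.card_sdiff_add_card_eq_card hYU
      omega
    have hsm' : 3 * (l * dd l + (s + 1) * (l * dd l)) + 3 * (l * dd l) ≤ 2 ^ (n + 1) := by
      refine le_trans (le_of_eq ?_) hsm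
      ring
    have hbig : 2 * 2 ^ (n + 1) + 3 * (l * dd l) ≤ 3 * yc n Y := by omega
    refine hfin Y (Or.inr hbig) ?_
    intro hiff
    rw [hYh'] at hiff
    have h1 : ¬ 1 / 2 < G.P j (world f Y) z := by
      have h2 : G.P j (world f Y) z ≤ 1 / 2 - 1 / ((s : ℝ) + 1) := hYg
      linarith
    refine h1 (hiff.1 ?_)
    rw [dens_world hf hn, le_div_iff₀ (by positivity)]
    have h2 : 2 * 2 ^ (n + 1) ≤ 3 * yc n Y := by omega
    have h3 : (2 : ℝ) * 2 ^ (n + 1) ≤ 3 * (yc n Y : ℝ) := by exact_mod_cast h2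
    linarith

end OrC
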