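import Pool.Agent.Lib.MP_f6efc0_lc.CoreB.Truth
import Pool.Agent.Lib.MP_f6efc0_lc.CoreB.Chain

/-!
# The diagonalisation stage

PROOF. `b = pair (pair j s) M`, `a₀ = 2 pair j s + 1`. `poly_bound` gives `c`, `dd_small` gives a large
`n`; `l = (n + 2) ^ c`, `x = 1^n`, `f` from `exists_fam`, `U` = words of length `n + 1`,
`z = G.F i (world f ∅) x`, `g Y = G.P j (world f Y) z`, `γ = 1 / (s + 1)`.
`all_ext`: for EVERY `Y`: `Ext G a₀ S m X l (world f Y)` (`ext_world`, `truth` with the first case of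
`Dom`), so by `Unk` and `bad_bpp` `γ ≤ |g Y - 1 / 2|`.
If `g ∅ ≥ 1 / 2 + γ`: take `Y = ∅`. Otherwise `chain` with `bad Y` = `depOf` of the reduction, together
with the `y ∈ U` for which the run of `j` on `z` depends on `y` with probability `≥ γ` (at most
`(s + 1) l dd l` many, `sum_pr_le` with singletons; step by `P_diff`, `F_loc`). The final `Y` has at
least `2^(n+1) - (s + 2) l dd l` elements, `K = 3 (s + 3)` in `dd_small`. In both cases `Dom` holds for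
all indices with margin `l dd l`, so `Ext G t S m X l (world f Y)` by `truth` and `ext_world`; `Unk` by
`Unk.ext`.
-/

set_option autoImplicit false

namespace OrC

variable {G : BSys}

theorem poly_bound (G : BSys) (i j b m : ℕ) : ∃ c n₀ : ℕ, ∀ n, n₀ ≤ n →
    m < n ∧ G.bF i n ≤ (n + 2) ^ c ∧ (∀ y : ℕ, y ≤ G.bF i n → G.bd j y ≤ (n + 2) ^ c) ∧
      b + n + 3 ≤ (n + 2) ^ c ∧ m ≤ (n + 2) ^ c := by
  obtain ⟨c1, h1⟩ := G.bF_poly i
  obtain ⟨c2, h2⟩ := G.bd_poly j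
  refine ⟨(c1 + 2) * c2 + c1 + (b + 2) + m, m + 1, fun n hn => ?_⟩
  have hmono : ∀ e, e ≤ (c1 + 2) * c2 + c1 + (b + 2) + m →
      (n + 2) ^ e ≤ (n + 2) ^ ((c1 + 2) * c2 + c1 + (b + 2) + m) := fun e he =>
    Nat.pow_le_pow_right (by omega) he
  refine ⟨by omega, (h1 n).trans (hmono _ (by omega)), ?_, ?_, ?_⟩
  · intro y hy
    refine (h2 y).trans (le_trans ?_ (hmono ((c1 + 2) * c2) (by omega)))
    rw [pow_mul]
    refine Nat.pow_le_pow_left ?_ _
    have h3 := h1 n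
    have h4 : (n + 2) ^ (c1 + 2) = (n + 2) ^ c1 * ((n + 2) * (n + 2)) := by ring
    have h5 : (n + 2) ^ c1 * 4 ≤ (n + 2) ^ c1 * ((n + 2) * (n + 2)) :=
      Nat.mul_le_mul_left _ (by nlinarith)
    have h6 : 1 ≤ (n + 2) ^ c1 := Nat.one_le_pow _ _ (by omega)
    omega
  · refine le_trans ?_ (hmono (b + 2) (by omega))
    have h3 : (n + 2) ^ (b + 2) = (n + 2) ^ (b + 1) * (n + 2) := pow_succ _ _
    have h4 : b + 1 < 2 ^ (b + 1) := Nat.lt_two_pow_self
    have h5 : 2 ^ (b + 1) ≤ (n + 2) ^ (b + 1) := Nat.pow_le_pow_left (by omega) _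
    have h6 : (b + 2) * (n + 2) ≤ (n + 2) ^ (b + 1) * (n + 2) :=
      Nat.mul_le_mul_right _ (by omega)
    have h7 : b + n + 3 ≤ (b + 2) * (n + 2) := by nlinarith
    omega
  · refine le_trans ?_ (hmono m (by omega))
    have h4 : m < 2 ^ m := Nat.lt_two_pow_self
    have h5 : 2 ^ m ≤ (n + 2) ^ m := Nat.pow_le_pow_left (by omega) _
    omega

theorem all_ext {S : Set ℕ} {m : ℕ} {X : Oracle} {j₀ s₀ M n : ℕ} {f : Fm} (hU : Unk G S m X)
    (hf : IsFam G S m X (Nat.pair (Nat.pair j₀ s₀) M) n f) (hm : 64 ≤ m)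
    (hn : m < Nat.pair (Nat.pair j₀ s₀) M + n + 3) {l : ℕ} (hl : m ≤ l)
    (hj : 2 * Nat.pair j₀ s₀ + 1 ∈ S) (Y : Finset Word) {z : Word}
    (hz : G.bd j₀ z.length ≤ l) : 1 / ((s₀ : ℝ) + 1) ≤ |G.P j₀ (world f Y) z - 1 / 2| := by
  have hE : Ext G (2 * Nat.pair j₀ s₀ + 1) S m X l (world f Y) := by
    refine ext_world hf hl hn Y ?_ ?_
    · intro j s k x h1 h2 h3 h4 h5
      exact truth hU hf hm hn hl h2 h3 h4 h5 Y (Or.inl h1)
    · intro h
      exact absurd h (lt_irrefl _)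
  have hV := hU _ hj l _ hE
  by_contra hcon
  rw [not_le] at hcon
  apply hV
  refine ⟨z, ?_, ?_⟩
  · rw [mach_bpp]
    exact hz
  · rw [mach_bpp, bad_bpp]
    exact hcon

end OrC
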