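import Pool.Agent.Lib.MP_f6efc0_lc.CoreB.Truth0

/-!
# The code bits of the family are correct for sparse and dense `Y`

`(j₀, s₀)` is the active BPP-machine, `b = pair (pair j₀ s₀) M` its `Y`-set, `n` the active level,
`N = 2^(n+1)`, `yc n Y` the number of `y ∈ Y` of length `n + 1`.

PROOF of `ext_world`: `Y`-sets `(pair (pair j s) M', n') ≠ (b, n)` are empty in the world, and
`(b, n)` has the density `yc n Y / N` (`pr_eq_card`); it matters only if `2 pair j₀ s₀ + 1 < a`.
PROOF of `truth`: strong induction on the length of the code word `w` of `(j, s, k, x)`, for all `Y`.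
If `P > 0`: `pos_iff` and `IsFam.one`. If `P = 0`: use `IsFam.zero`: let `Y (+) B` match a
certificate, `B.card ≤ ew |w| ≤ dd l`; then `Dom (2 j) ((|w| - 1) * dd l) (Y (+) B)`, so by induction
all code bits of kept `2 j' < 2 j` of levels `≤ |w| - 1` are correct in `world f (Y (+) B)` and
`ext_world` gives `Ext G (2 j) S m X (|w| - 1) (world f (Y (+) B))`; `Unk` gives
`P (world f (Y (+) B)) = 0` or `> 1 / 2`, it is `> 0` by `pos_iff`, so it is `> 1 / 2`; and
`P (world f Y) = 0`, so by `P_diff` the run under `Y` meets `B` with probability `> 1 / 2`. For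
disjoint `B`'s `sum_pr_le` (with `K = ew |w|`, `depRun_card`) gives `card / 2 ≤ ew |w|`.
-/

set_option autoImplicit false

namespace OrC

variable {G : BSys} {S : Set ℕ} {m : ℕ} {X : Oracle} {j₀ s₀ M n : ℕ} {f : Fm}

private theorem truth_ew_le {L l : ℕ} (h64 : 64 ≤ L) (hl : L ≤ l) : ew L ≤ dd l := by
  have h1 := dd_rec h64
  have h2 : ew L ≤ (2 * ew L + 1) * ew L := Nat.le_mul_of_pos_left _ (by omega)
  have h3 : (2 * ew L + 1) * ew L ≤ dd L := h1
  exact (h2.trans h3).trans (dd_mono hl)

private theorem truth_dom {a₀ a a' δ δ' K : ℕ} {Y B : Finset Word} (hY : Dom a₀ n a δ Y)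
    (hB : B.card ≤ K) (hδ : δ' + K ≤ δ) (ha : a' ≤ a) : Dom a₀ n a' δ' (symmDiff Y B) := by
  have hc := yc_symmDiff n Y B
  rcases hY with h | h | h
  · exact Or.inl (lt_of_le_of_lt ha h)
  · exact Or.inr (Or.inl (by omega))
  · exact Or.inr (Or.inr (by omega))

theorem truth (hU : Unk G S m X) (hf : IsFam G S m X (Nat.pair (Nat.pair j₀ s₀) M) n f)
    (hm : 64 ≤ m) (hn : m < Nat.pair (Nat.pair j₀ s₀) M + n + 3) {l : ℕ} (hl : m ≤ l)
    {j s k : ℕ} {x : Word} (hj : 2 * j ∈ S) (h1 : m < (false :: code j s k x).length)
    (h2 : (false :: code j s k x).length ≤ l) (hk : G.bd j x.length ^ 2 ≤ k) (Y : Finset Word)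
    (hY : Dom (2 * Nat.pair j₀ s₀ + 1) n (2 * j)
      ((false :: code j s k x).length * dd l) Y) :
    CodeOK G (world f Y) j s k x := by
  have key : ∀ L : ℕ, ∀ (j s k : ℕ) (x : Word) (Y : Finset Word),
      (false :: code j s k x).length = L → 2 * j ∈ S → m < (false :: code j s k x).length →
      (false :: code j s k x).length ≤ l → G.bd j x.length ^ 2 ≤ k →
      Dom (2 * Nat.pair j₀ s₀ + 1) n (2 * j) ((false :: code j s k x).length * dd l) Y →
      CodeOK G (world f Y) j s k x := by
    intro L
    induction L using Nat.strong_induction_on with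
    | _ L ih =>
      intro j s k x Y hL hj h1 h2 hk hY
      rw [hL] at h1 h2 hY
      have hdd1 := dd_pos l
      have hew : ew L ≤ dd l := truth_ew_le (by omega) h2
      have hval := bd_le_of_valid (G := G) (j := j) (s := s) (k := k) (x := x) hk
      rw [hL] at hval
      have hcert := pos_iff hf (j := j) (s := s) (k := k) (x := x) hk
      rw [hL] at hcert
      constructor
      · intro hw
        by_contra hP
        have hPY0 : G.P j (world f Y) x = 0 :=
          le_antisymm (not_lt.1 hP) (Pr_nonneg _ _)
        have hzero := hf.zero j s k x hj (by rw [hL]; exact h1) hk Y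
        rw [hL] at hzero
        have hfalse : (f (false :: code j s k x) Y).1 = false := by
          refine hzero (fun hc => hP ((hcert Y).2 hc)) fun Bs hBs hdis => ?_
          -- every `B` is met with probability more than one half
          have hhalf : ∀ B ∈ Bs, (1 / 2 : ℝ) ≤
              Pr (G.rl j x.length) fun r => ¬ Disjoint (depRun G f j x r Y) B := by
            intro B hB
            obtain ⟨_, hBc, hBm⟩ := hBs B hB
            have hpos : 0 < G.P j (world f (symmDiff Y B)) x := (hcert _).2 hBm
            have hcode : ∀ j' s' k' x', 2 * j' < 2 * j → 2 * j' ∈ S →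
                m < (false :: code j' s' k' x').length →
                (false :: code j' s' k' x').length ≤ L - 1 → G.bd j' x'.length ^ 2 ≤ k' →
                CodeOK G (world f (symmDiff Y B)) j' s' k' x' := by
              intro j' s' k' x' hjj hj' h1' h2' hk'
              refine ih _ (by omega) j' s' k' x' _ rfl hj' h1' (by omega) hk' ?_
              refine truth_dom hY (hBc.trans hew) ?_ (by omega)
              calc (false :: code j' s' k' x').length * dd l + dd l
                  ≤ (L - 1) * dd l + dd l := Nat.add_le_add_right (Nat.mul_le_mul_right _ h2') _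
                _ = L * dd l := by
                  rw [← Nat.succ_mul]
                  congr 1
                  omega
            have hdens : 2 * Nat.pair j₀ s₀ + 1 < 2 * j →
                3 * yc n (symmDiff Y B) ≤ 2 ^ (n + 1) ∨
                  2 * 2 ^ (n + 1) ≤ 3 * yc n (symmDiff Y B) := by
              intro hlt
              have hLl : dd l ≤ L * dd l := Nat.le_mul_of_pos_left _ (by omega)
              have hd := truth_dom (a' := 2 * j) (δ' := 0) hY (hBc.trans hew) (by omega) le_rfl
              rcases hd with h | h | h
              · omega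
              · exact Or.inl (by omega)
              · exact Or.inr (by omega)
            have hext : Ext G (2 * j) S m X (L - 1) (world f (symmDiff Y B)) :=
              ext_world hf (by omega) hn _ hcode hdens
            have hnv := hU (2 * j) hj (L - 1) _ hext
            have hbig : 1 / 2 < G.P j (world f (symmDiff Y B)) x := by
              by_contra hle
              refine hnv ⟨x, ?_, ?_⟩
              · rw [mach_rp]
                omega
              · rw [mach_rp, bad_rp]
                exact ⟨hpos, not_lt.1 hle⟩
            have hdiff := P_diff hf j x Y (symmDiff Y B)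
            rw [symmDiff_symmDiff_cancel_left, hPY0, zero_sub, abs_neg] at hdiff
            exact (hbig.le.trans (le_abs_self _)).trans hdiff
          have hsum := sum_pr_le (G.rl j x.length) (fun r => depRun G f j x r Y) (ew L)
            (fun r hr => depRun_card hf j x r Y hr hval.1) Bs hdis
          have hcard : (Bs.card : ℝ) * (1 / 2) ≤ ew L := by
            refine le_trans ?_ hsum
            have := Finset.card_nsmul_le_sum Bs
              (fun B => Pr (G.rl j x.length) fun r => ¬ Disjoint (depRun G f j x r Y) B) (1 / 2)
              hhalf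
            rwa [nsmul_eq_mul] at this
          have hcard' : (Bs.card : ℝ) ≤ ((2 * ew L : ℕ) : ℝ) := by
            push_cast
            linarith
          exact_mod_cast hcard'
        have hw' : (f (false :: code j s k x) Y).1 = true := hw
        rw [hfalse] at hw'
        exact Bool.false_ne_true hw'
      · intro hP
        have hone := hf.one j s k x hj (by rw [hL]; exact h1) hk Y
        rw [hL] at hone
        exact hone ((hcert Y).1 hP)
  exact key _ j s k x Y rfl hj h1 h2 hk hY

end OrC
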