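import Pool.Agent.Lib.MP_f6efc0_lc.CoreB.Run

/-!
# The code bits of the family are correct for sparse and dense `Y`

`(j₀, s₀)` is the active BPP-machine, `b = pair (pair j₀ s₀) M` its `Y`-set, `n` the active level,
`N = 2^(n+1)`, `yc n Y` the number of `y ∈ Y` of length `n + 1`.

PROOF of `ext_world`: `Y`-sets `(pair (pair j s) M', n') ≠ (b, n)` are empty in the world, and
`(b, n)` has the density `yc n Y / N` (`pr_eq_card`); it matters only if `2 pair j₀ s₀ + 1 < a`.
(The proof of `truth`, file `Truth.lean`, is repeated here: strong induction on the length of the code word `w` of `(j, s, k, x)`, for all `Y`.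
If `P > 0`: `pos_iff` and `IsFam.one`. If `P = 0`: use `IsFam.zero`: let `Y (+) B` match a
certificate, `B.card ≤ ew |w| ≤ dd l`; then `Dom (2 j) ((|w| - 1) * dd l) (Y (+) B)`, so by induction
all code bits of kept `2 j' < 2 j` of levels `≤ |w| - 1` are correct in `world f (Y (+) B)` and
`ext_world` gives `Ext G (2 j) S m X (|w| - 1) (world f (Y (+) B))`; `Unk` gives
`P (world f (Y (+) B)) = 0` or `> 1 / 2`, it is `> 0` by `pos_iff`, so it is `> 1 / 2`; and
`P (world f Y) = 0`, so by `P_diff` the run under `Y` meets `B` with probability `> 1 / 2`. For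
disjoint `B`'s `sum_pr_le` (with `K = ew |w|`, `depRun_card`) gives `card / 2 ≤ ew |w|`.)
-/

set_option autoImplicit false

namespace OrC

/-- Number of elements of length `n + 1`. -/
def yc (n : ℕ) (Y : Finset Word) : ℕ := (Y.filter fun r => r.length = n + 1).card

/-- `Y` is allowed for the index `a`, with margin `δ`: any `Y` if `a` comes before the active
BPP-index `a₀`, otherwise `Y` is sparse or dense. -/
def Dom (a₀ n a δ : ℕ) (Y : Finset Word) : Prop :=
  a < a₀ ∨ 3 * (yc n Y + δ) ≤ 2 ^ (n + 1) ∨ 2 * 2 ^ (n + 1) + 3 * δ ≤ 3 * yc n Y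

theorem yc_symmDiff (n : ℕ) (Y B : Finset Word) :
    yc n (symmDiff Y B) ≤ yc n Y + B.card ∧ yc n Y ≤ yc n (symmDiff Y B) + B.card := by
  constructor
  · refine (Finset.card_le_card (t := (Y.filter fun r => r.length = n + 1) ∪ B) ?_).trans
      (Finset.card_union_le _ _)
    intro r hr
    rw [Finset.mem_filter, Finset.mem_symmDiff] at hr
    rw [Finset.mem_union, Finset.mem_filter]
    rcases hr with ⟨h | h, hl⟩
    · exact Or.inl ⟨h.1, hl⟩
    · exact Or.inr h.1
  · refine (Finset.card_le_card
      (t := ((symmDiff Y B).filter fun r => r.length = n + 1) ∪ B) ?_).trans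
      (Finset.card_union_le _ _)
    intro r hr
    rw [Finset.mem_filter] at hr
    rw [Finset.mem_union, Finset.mem_filter, Finset.mem_symmDiff]
    by_cases hB : r ∈ B
    · exact Or.inr hB
    · exact Or.inl ⟨Or.inl ⟨hr.1, hB⟩, hr.2⟩

variable {G : BSys} {S : Set ℕ} {m : ℕ} {X : Oracle} {j₀ s₀ M n : ℕ} {f : Fm}

theorem dens_world (hf : IsFam G S m X (Nat.pair (Nat.pair j₀ s₀) M) n f)
    (hn : m < Nat.pair (Nat.pair j₀ s₀) M + n + 3) (Y : Finset Word) :
    dens (world f Y) (Nat.pair (Nat.pair j₀ s₀) M) n = (yc n Y : ℝ) / 2 ^ (n + 1) := by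
  unfold dens Pr
  congr 2
  rw [yc, ← Set.ncard_coe_finset]
  congr 1
  ext r
  rw [Finset.coe_filter]
  constructor
  · rintro ⟨hr, h⟩
    have hl : m < (true :: tag (Nat.pair (Nat.pair j₀ s₀) M) r).length := by
      rw [length_y, hr]; omega
    have h1 : (f (true :: tag (Nat.pair (Nat.pair j₀ s₀) M) r) Y).1 = true := h
    rw [hf.yes r hr hl Y] at h1
    exact ⟨of_decide_eq_true h1, hr⟩
  · rintro ⟨h, hr⟩
    refine ⟨hr, ?_⟩
    have hl : m < (true :: tag (Nat.pair (Nat.pair j₀ s₀) M) r).length := by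
      rw [length_y, hr]; omega
    show (f (true :: tag (Nat.pair (Nat.pair j₀ s₀) M) r) Y).1 = true
    rw [hf.yes r hr hl Y]
    exact decide_eq_true h

theorem ext_world (hf : IsFam G S m X (Nat.pair (Nat.pair j₀ s₀) M) n f) {a L : ℕ} (hL : m ≤ L)
    (hn : m < Nat.pair (Nat.pair j₀ s₀) M + n + 3) (Y : Finset Word)
    (hcode : ∀ j s k x, 2 * j < a → 2 * j ∈ S → m < (false :: code j s k x).length →
      (false :: code j s k x).length ≤ L → G.bd j x.length ^ 2 ≤ k →
      CodeOK G (world f Y) j s k x)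
    (hdens : 2 * Nat.pair j₀ s₀ + 1 < a →
      3 * yc n Y ≤ 2 ^ (n + 1) ∨ 2 * 2 ^ (n + 1) ≤ 3 * yc n Y) :
    Ext G a S m X L (world f Y) := by
  refine ⟨hL, fun w hw => ?_, hcode, ?_⟩
  · show (f w Y).1 = X w
    rw [hf.old w hw Y]
  · intro j s M' n' hja _ hm' _
    by_cases hb : Nat.pair (Nat.pair j s) M' = Nat.pair (Nat.pair j₀ s₀) M ∧ n' = n
    · obtain ⟨hb1, rfl⟩ := hb
      have hjs : Nat.pair j s = Nat.pair j₀ s₀ := (Nat.pair_eq_pair.1 hb1).1
      rw [hb1, dens_world hf hn Y]
      have hpos : (0 : ℝ) < 2 ^ (n' + 1) := by positivity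
      rcases hdens (hjs ▸ hja) with h | h
      · left
        rw [div_le_div_iff₀ hpos (by norm_num)]
        have h' : (3 * yc n' Y : ℝ) ≤ 2 ^ (n' + 1) := by exact_mod_cast h
        linarith
      · right
        rw [div_le_div_iff₀ (by norm_num) hpos]
        have h' : (2 * 2 ^ (n' + 1) : ℝ) ≤ 3 * yc n' Y := by exact_mod_cast h
        linarith
    · left
      have h0 : dens (world f Y) (Nat.pair (Nat.pair j s) M') n' = 0 := by
        unfold dens Pr
        have he : {r : Word | r.length = n' + 1 ∧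
            world f Y (true :: tag (Nat.pair (Nat.pair j s) M') r) = true} = ∅ := by
          ext r
          constructor
          · rintro ⟨hr, h⟩
            have hl : m < (true :: tag (Nat.pair (Nat.pair j s) M') r).length := by
              rw [length_y, hr]; omega
            have h1 : (f (true :: tag (Nat.pair (Nat.pair j s) M') r) Y).1 = true := h
            rw [hf.no _ r hl (fun h2 => hb ⟨h2.1, by omega⟩) Y] at h1
            exact absurd h1 (by simp)
          · intro h
            exact h.elim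
        rw [he, Set.ncard_empty]
        simp
      rw [h0]
      norm_num

end OrC
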